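import Pool.Agent.H256.RN.Loc

/-!
# `C¹` test functions in `ℝⁿ` (RN5-C1, helper308)
-/

set_option autoImplicit false

open MeasureTheory Set Filter Topology
open scoped ContDiff Convolution

noncomputable section

namespace Pool.Agent.H256.RN

variable {n : ℕ}

/-- approximation of `C¹` test functions by smooth ones -/
lemma approx {U : Set (Rn n)} (hU : IsOpen U) {ψ : Rn n → ℂ} (hψ : ContDiff ℝ 1 ψ)
    (hc : HasCompactSupport ψ) (hs : tsupport ψ ⊆ U) :
    ∃ K : Set (Rn n), IsCompact K ∧ K ⊆ U ∧ tsupport ψ ⊆ K ∧ ∀ ε : ℝ, 0 < ε →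
      ∃ φ : Rn n → ℂ, Test U φ ∧
      tsupport φ ⊆ K ∧ (∀ x, ‖φ x - ψ x‖ ≤ ε) ∧ ∀ j x, ‖pd j φ x - pd j ψ x‖ ≤ ε := by
  obtain ⟨δ, hδ, hδU⟩ := hc.exists_cthickening_subset_open hU hs
  refine ⟨Metric.cthickening δ (tsupport ψ), hc.isCompact.cthickening, hδU,
    Metric.self_subset_cthickening _, fun ε hε => ?_⟩
  -- uniform continuity
  have huc : ∀ {f : Rn n → ℂ}, Continuous f → HasCompactSupport f →
      ∃ r : ℝ, 0 < r ∧ ∀ x y, dist x y < r → dist (f x) (f y) ≤ ε := by
    intro f hf hfc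
    obtain ⟨r, hr, hr'⟩ := Metric.uniformContinuous_iff.1
      (hfc.uniformContinuous_of_continuous hf) ε hε
    exact ⟨r, hr, fun x y hxy => (hr' hxy).le⟩
  obtain ⟨r0, hr0, h0⟩ := huc hψ.continuous hc
  have hder : ∃ r1 : ℝ, 0 < r1 ∧ ∀ j x y, dist x y < r1 → dist (pd j ψ x) (pd j ψ y) ≤ ε := by
    choose ρ hρ hρ' using fun j : Fin n => huc (pd_continuous hψ j) (pd_cpt hc j)
    rcases isEmpty_or_nonempty (Fin n) with hem | hne
    · exact ⟨1, one_pos, fun j => (hem.false j).elim⟩
    · refine ⟨Finset.univ.inf' Finset.univ_nonempty ρ, ?_, fun j x y hxy => ?_⟩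
      · rw [Finset.lt_inf'_iff]
        exact fun j _ => hρ j
      · exact hρ' j x y (hxy.trans_le (Finset.inf'_le _ (Finset.mem_univ j)))
  obtain ⟨r1, hr1, h1⟩ := hder
  set r : ℝ := min δ (min r0 r1) with hr
  have hrpos : 0 < r := lt_min hδ (lt_min hr0 hr1)
  have hrδ : r ≤ δ := min_le_left _ _
  have hrr0 : r ≤ r0 := (min_le_right _ _).trans (min_le_left _ _)
  have hrr1 : r ≤ r1 := (min_le_right _ _).trans (min_le_right _ _)
  let b : ContDiffBump (0 : Rn n) := ⟨r / 2, r, by positivity, by linarith⟩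
  have hbout : b.rOut = r := rfl
  set φ : Rn n → ℂ := (b.normed volume) ⋆[ContinuousLinearMap.lsmul ℝ ℝ, volume] ψ with hφ
  have hbl : LocallyIntegrable (b.normed volume) volume :=
    (b.continuous_normed (μ := volume)).locallyIntegrable
  have hsm : ContDiff ℝ ∞ φ :=
    b.hasCompactSupport_normed.contDiff_convolution_left _ b.contDiff_normed
      hψ.continuous.locallyIntegrable
  have hsupp : Function.support φ ⊆ Metric.cthickening δ (tsupport ψ) := by
    intro x hx
    have h3 := support_convolution_subset (ContinuousLinearMap.lsmul ℝ ℝ) hx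
    rw [b.support_normed_eq] at h3
    obtain ⟨y, hy, z, hz, rfl⟩ := Set.mem_add.1 h3
    refine Metric.mem_cthickening_of_dist_le (y + z) z δ _ (subset_tsupport _ hz) ?_
    rw [mem_ball_zero_iff] at hy
    rw [dist_eq_norm, add_sub_cancel_right]
    exact (hy.le.trans hbout.le).trans hrδ
  have htsupp : tsupport φ ⊆ Metric.cthickening δ (tsupport ψ) :=
    closure_minimal hsupp Metric.isClosed_cthickening
  have hcφ : HasCompactSupport φ :=
    hc.isCompact.cthickening.of_isClosed_subset (isClosed_tsupport _) htsupp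
  have hpd : ∀ j, pd j φ = (b.normed volume) ⋆[ContinuousLinearMap.lsmul ℝ ℝ, volume] (pd j ψ) := by
    intro j
    funext x
    have h3 := (hc.hasFDerivAt_convolution_right (ContinuousLinearMap.lsmul ℝ ℝ) hbl hψ x).fderiv
    show fderiv ℝ φ x (EuclideanSpace.single j (1 : ℝ)) = _
    rw [hφ, h3, convolution_precompR_apply _ hbl (hc.fderiv ℝ) (hψ.continuous_fderiv (by simp))]
    rfl
  refine ⟨φ, ⟨hsm, hcφ, htsupp.trans hδU⟩, htsupp, fun x => ?_, fun j x => ?_⟩
  · rw [← dist_eq_norm]
    refine b.dist_normed_convolution_le hψ.continuous.aestronglyMeasurable (fun y hy => ?_)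
    rw [hbout, Metric.mem_ball] at hy
    exact h0 y x (hy.trans_le hrr0)
  · rw [← dist_eq_norm, hpd j]
    refine b.dist_normed_convolution_le (pd_continuous hψ j).aestronglyMeasurable (fun y hy => ?_)
    rw [hbout, Metric.mem_ball] at hy
    exact h1 j y x (hy.trans_le hrr1)

theorem c1 (n : ℕ) : C1Stm n := by
  intro V h U hU hV hh hN ψ hψ hc hs
  obtain ⟨K, hK, hKU, hψK, happ⟩ := approx hU hψ hc hs
  choose M hM using fun j : Fin n => hK.exists_bound_of_continuousOn ((hV j).mono hKU)
  obtain ⟨M', hM'⟩ := hK.exists_bound_of_continuousOn (hh.mono hKU)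
  set S : ℝ := (∑ j, |M j|) + |M'| with hS
  have hS0 : 0 ≤ S := by positivity
  have key : ∀ ε : ℝ, 0 < ε → ‖TT V h ψ‖ ≤ S * ε * volume.real K := by
    intro ε hε
    obtain ⟨φ, hφ, hφK, ha, hb⟩ := happ ε hε
    have e1 : TT V h ψ = -(TT V h φ - TT V h ψ) := by rw [hN φ hφ]; ring
    have e2 : TT V h φ - TT V h ψ = ∫ x, ((∑ j, V j x * (pd j φ x - pd j ψ x)) +
        h x * (φ x - ψ x)) := by
      unfold TT
      rw [← integral_sub (TT_integrable hU hV hh hφ.c1 hφ.cpt hφ.sub)
        (TT_integrable hU hV hh hψ hc hs)]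
      refine integral_congr_ae (Eventually.of_forall fun x => ?_)
      simp only
      simp_rw [mul_sub, Finset.sum_sub_distrib]
      ring
    have e3 : ∫ x, ((∑ j, V j x * (pd j φ x - pd j ψ x)) + h x * (φ x - ψ x)) =
        ∫ x in K, ((∑ j, V j x * (pd j φ x - pd j ψ x)) + h x * (φ x - ψ x)) := by
      symm
      refine setIntegral_eq_integral_of_forall_compl_eq_zero (fun x hx => ?_)
      have z1 : φ x = 0 := image_eq_zero_of_notMem_tsupport fun hh' => hx (hφK hh')
      have z2 : ψ x = 0 := image_eq_zero_of_notMem_tsupport fun hh' => hx (hψK hh')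
      have z3 : ∀ j, pd j φ x = 0 := fun j =>
        image_eq_zero_of_notMem_tsupport fun hh' => hx (hφK (pd_tsupport φ j hh'))
      have z4 : ∀ j, pd j ψ x = 0 := fun j =>
        image_eq_zero_of_notMem_tsupport fun hh' => hx (hψK (pd_tsupport ψ j hh'))
      simp [z1, z2, z3, z4]
    rw [e1, norm_neg, e2, e3]
    refine norm_setIntegral_le_of_norm_le_const hK.measure_lt_top (fun x hx => ?_)
    have b0 : ∀ j, ‖V j x * (pd j φ x - pd j ψ x)‖ ≤ |M j| * ε := by
      intro j
      rw [norm_mul]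
      exact mul_le_mul ((hM j x hx).trans (le_abs_self _)) (hb j x) (norm_nonneg _) (abs_nonneg _)
    have b2 : ‖h x * (φ x - ψ x)‖ ≤ |M'| * ε := by
      rw [norm_mul]
      exact mul_le_mul ((hM' x hx).trans (le_abs_self _)) (ha x) (norm_nonneg _) (abs_nonneg _)
    calc _ ≤ ‖∑ j, V j x * (pd j φ x - pd j ψ x)‖ + ‖h x * (φ x - ψ x)‖ := norm_add_le _ _
      _ ≤ (∑ j, |M j| * ε) + |M'| * ε :=
          add_le_add ((norm_sum_le _ _).trans (Finset.sum_le_sum fun j _ => b0 j)) b2
      _ = S * ε := by rw [hS, ← Finset.sum_mul]; ring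
  have hlim : ‖TT V h ψ‖ ≤ 0 := by
    refine le_of_forall_pos_le_add (fun η hη => ?_)
    have hV : 0 ≤ volume.real K := measureReal_nonneg
    have h3 := key (η / (S * volume.real K + 1)) (by positivity)
    have h4 : S * (η / (S * volume.real K + 1)) * volume.real K ≤ η := by
      have : S * (η / (S * volume.real K + 1)) * volume.real K =
          η * ((S * volume.real K) / (S * volume.real K + 1)) := by ring
      rw [this]
      have h5 : (S * volume.real K) / (S * volume.real K + 1) ≤ 1 := by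
        rw [div_le_one (by positivity)]
        linarith
      calc η * ((S * volume.real K) / (S * volume.real K + 1)) ≤ η * 1 :=
            mul_le_mul_of_nonneg_left h5 hη.le
        _ = η := mul_one η
    linarith
  exact norm_le_zero_iff.1 hlim

end Pool.Agent.H256.RN
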