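import Mathlib

/-!
# Radó-type removability in `ℝⁿ` for operators with a real quadratic factor: definitions
-/

open MeasureTheory Set Filter Topology
open scoped ContDiff

noncomputable section

namespace Pool.Agent.H256.RN

/-- `ℝⁿ`. -/
abbrev Rn (n : ℕ) := EuclideanSpace ℝ (Fin n)

variable {n : ℕ}

/-- Partial derivative `∂/∂x_j` of a complex valued function on `ℝⁿ`. -/
def pd (j : Fin n) (f : Rn n → ℂ) : Rn n → ℂ :=
  fun x => fderiv ℝ f x (EuclideanSpace.single j (1 : ℝ))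

/-- `∂_w f = ∂_{j₁} ⋯ ∂_{j_k} f` for the word `w = [j₁, …, j_k]`. -/
def dw : List (Fin n) → (Rn n → ℂ) → (Rn n → ℂ)
  | [], f => f
  | j :: w, f => pd j (dw w f)

/-- `φ ∈ C_c^∞(U)`. -/
structure Test (U : Set (Rn n)) (φ : Rn n → ℂ) : Prop where
  smooth : ContDiff ℝ ∞ φ
  cpt : HasCompactSupport φ
  sub : tsupport φ ⊆ U

/-- The formal transpose of `A = ∑_{k ≤ m} ∑_{w ∈ {1..n}^k} b_w D_{w₁} ⋯ D_{w_k}`,
`D_j = -√-1 ∂_j`: `A^t ψ = ∑ (-1)^k D_w (b_w ψ) = ∑ (√-1)^k ∂_w (b_w ψ)`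
(for smooth functions the order of the derivatives does not matter). -/
def At (m : ℕ) (b : List (Fin n) → Rn n → ℂ) (ψ : Rn n → ℂ) : Rn n → ℂ :=
  fun x => ∑ k ∈ Finset.range (m + 1), ∑ w : Fin k → Fin n,
    Complex.I ^ k * dw (List.ofFn w) (fun y => b (List.ofFn w) y * ψ y) x

/-- The formal transpose of `L = ∑_{i,j} q_{ij} D_i D_j`, `D_j = -√-1 ∂_j`:
`L^t φ = -∑_{i,j} ∂_i ∂_j (q_{ij} φ)`. -/
def Lt (q : Fin n → Fin n → Rn n → ℝ) (φ : Rn n → ℂ) : Rn n → ℂ :=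
  fun x => -∑ i, ∑ j, pd i (pd j (fun y => (q i j y : ℂ) * φ y)) x

/-- `P f = 0` on `U` in the sense of distributions, for `P = L ∘ Q + R` with
`L = ∑ q_{ij} D_i D_j`, `Q` of order `≤ p - 2` with coefficients `b` and `R` of order `≤ p - 1`
with coefficients `c`; the transpose of `P` is `φ ↦ Q^t (L^t φ) + R^t φ`. -/
def PZero (p : ℕ) (q : Fin n → Fin n → Rn n → ℝ) (b c : List (Fin n) → Rn n → ℂ)
    (f : Rn n → ℂ) (U : Set (Rn n)) : Prop :=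
  ∀ φ, Test U φ → ∫ x, f x * (At (p - 2) b (Lt q φ) x + At (p - 1) c φ x) = 0

/-- The main theorem in dimension `n`. -/
def MainStm (n : ℕ) : Prop :=
  ∀ (p : ℕ), 2 ≤ p → ∀ (O : Set (Rn n)), IsOpen O →
    ∀ (q : Fin n → Fin n → Rn n → ℝ) (b c : List (Fin n) → Rn n → ℂ),
    (∀ i j, ContDiffOn ℝ ∞ (q i j) O) → (∀ w, ContDiffOn ℝ ∞ (b w) O) →
    (∀ w, ContDiffOn ℝ ∞ (c w) O) → (∀ i j x, q i j x = q j i x) →
    (∀ x ∈ O, ∀ ξ : Rn n, ξ ≠ 0 → 0 < ∑ i, ∑ j, q i j x * ξ i * ξ j) →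
    ∀ f : Rn n → ℂ, ContDiffOn ℝ (p - 1 : ℕ) f O →
      PZero p q b c f (O \ {x | f x = 0}) → PZero p q b c f O

end Pool.Agent.H256.RN
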