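import Pool.Agent.H256.RN.EnT

/-!
# The energy estimate in `ℝⁿ` (RN1-EN, helper308)
-/

open MeasureTheory Set Filter Topology
open scoped ContDiff Manifold

set_option autoImplicit false

noncomputable section

namespace Pool.Agent.H256.RN

namespace EnAux

open Pool.Agent.H256.RD.EnAux (FF FD FF_nonneg FF_low FD_low FF_high FD_high FF_hasDerivAt
  FF_contDiff FD_cont)

variable {n : ℕ}

theorem bdd_fam {ι : Type} [Fintype ι] {f : ι → Rn n → ℝ} (hf : ∀ i, Continuous (f i))
    {S : Set (Rn n)} (hS : IsCompact S) : ∃ K, 0 ≤ K ∧ ∀ i, ∀ x ∈ S, |f i x| ≤ K := by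
  have h : ∀ i, ∃ C, ∀ x ∈ S, |f i x| ≤ C := fun i =>
    hS.exists_bound_of_continuousOn (hf i).continuousOn
  choose C hC using h
  refine ⟨∑ i, |C i|, Finset.sum_nonneg fun i _ => abs_nonneg _, fun i x hx => ?_⟩
  exact ((hC i x hx).trans (le_abs_self _)).trans
    (Finset.single_le_sum (f := fun i => |C i|) (fun i _ => abs_nonneg _) (Finset.mem_univ i))

/-- a smooth cut-off -/
theorem cut {K B : Set (Rn n)} (hK : IsClosed K) (hB : IsOpen B) (hKB : K ⊆ B) :
    ∃ ρ : Rn n → ℝ, ContDiff ℝ ∞ ρ ∧ (∀ x ∈ K, ∀ᶠ y in 𝓝 x, ρ y = 1) ∧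
      (∀ x, x ∉ B → ∀ᶠ y in 𝓝 x, ρ y = 0) := by
  obtain ⟨f, h0, h1, -⟩ := exists_contMDiffMap_zero_one_nhds_of_isClosed (n := (⊤ : ℕ∞))
    (𝓘(ℝ, Rn n)) hB.isClosed_compl hK
    (by rw [Set.disjoint_left]; exact fun x hx hxK => hx (hKB hxK))
  refine ⟨f, f.contMDiff.contDiff, fun x hx => ?_, fun x hx => ?_⟩
  · exact h1.filter_mono (nhds_le_nhdsSet hx)
  · exact h0.filter_mono (nhds_le_nhdsSet hx)

theorem cut_mul_smooth {B : Set (Rn n)} (hB : IsOpen B) {ρ f : Rn n → ℝ}
    (hρ : ContDiff ℝ ∞ ρ) (h0 : ∀ x, x ∉ B → ∀ᶠ y in 𝓝 x, ρ y = 0)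
    (hf : ContDiffOn ℝ ∞ f B) : ContDiff ℝ ∞ (fun x => ρ x * f x) := by
  rw [contDiff_iff_contDiffAt]
  intro x
  by_cases hx : x ∈ B
  · exact hρ.contDiffAt.mul (hf.contDiffAt (hB.mem_nhds hx))
  · refine (contDiffAt_const (c := (0:ℝ))).congr_of_eventuallyEq ?_
    filter_upwards [h0 x hx] with y hy
    rw [hy, zero_mul]

/-- uniform ellipticity on compact sets -/
theorem elliptic {K : Set (Rn n)} (hK : IsCompact K) {Q : Fin n → Fin n → Rn n → ℝ}
    (hQ : ∀ i j, Continuous (Q i j))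
    (hpos : ∀ x ∈ K, ∀ ξ : Rn n, ξ ≠ 0 → 0 < ∑ i, ∑ j, Q i j x * ξ i * ξ j) :
    ∃ lam : ℝ, 0 < lam ∧ ∀ x ∈ K, ∀ ξ : Fin n → ℝ,
      lam * ∑ i, ξ i ^ 2 ≤ ∑ i, ∑ j, Q i j x * ξ i * ξ j := by
  set S : Set (Rn n × Rn n) := K ×ˢ Metric.sphere (0 : Rn n) 1 with hS
  have hSc : IsCompact S := hK.prod (isCompact_sphere _ _)
  set F : Rn n × Rn n → ℝ := fun p => ∑ i, ∑ j, Q i j p.1 * p.2 i * p.2 j with hF
  have hFc : Continuous F := by
    refine continuous_finsetSum _ fun i _ => continuous_finsetSum _ fun j _ => ?_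
    have h1 := (hQ i j).comp continuous_fst (X := Rn n × Rn n)
    exact (h1.mul (by fun_prop)).mul (by fun_prop)
  have hex : ∃ lam : ℝ, 0 < lam ∧ ∀ p ∈ S, lam ≤ F p := by
    rcases S.eq_empty_or_nonempty with h | h
    · exact ⟨1, one_pos, fun p hp => by rw [h] at hp; exact hp.elim⟩
    · obtain ⟨p, hp, hmin⟩ := hSc.exists_isMinOn h hFc.continuousOn
      refine ⟨F p, ?_, fun p' hp' => hmin hp'⟩
      refine hpos p.1 hp.1 p.2 ?_
      intro h0
      have := hp.2
      rw [h0] at this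
      simp at this
  obtain ⟨lam, hlam, hl⟩ := hex
  refine ⟨lam, hlam, fun x hx ξ => ?_⟩
  set v : Rn n := WithLp.toLp 2 ξ with hv
  have hvi : ∀ i, v i = ξ i := fun i => rfl
  by_cases h0 : v = 0
  · have : ∀ i, ξ i = 0 := fun i => by rw [← hvi, h0]; rfl
    simp [this]
  · have hn : 0 < ‖v‖ := norm_pos_iff.2 h0
    have h1 := hl (x, ‖v‖⁻¹ • v) ⟨hx, by
      rw [mem_sphere_zero_iff_norm, norm_smul, norm_inv, norm_norm, inv_mul_cancel₀ hn.ne']⟩
    have h2 : F (x, ‖v‖⁻¹ • v) = (‖v‖ ^ 2)⁻¹ * ∑ i, ∑ j, Q i j x * ξ i * ξ j := by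
      simp only [hF, Finset.mul_sum]
      refine Finset.sum_congr rfl fun i _ => Finset.sum_congr rfl fun j _ => ?_
      simp only [PiLp.smul_apply, smul_eq_mul, hvi]
      field_simp
    have h3 : ‖v‖ ^ 2 = ∑ i, ξ i ^ 2 := by
      rw [EuclideanSpace.norm_sq_eq]
      exact Finset.sum_congr rfl fun i _ => by rw [hvi, Real.norm_eq_abs, sq_abs]
    rw [h2] at h1
    rw [← h3]
    rw [inv_mul_eq_div, le_div_iff₀ (by positivity)] at h1
    exact h1

end EnAux

open Pool.Agent.H256.RD.EnAux (FF FD FF_nonneg FF_low FD_low)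

open EnAux in
theorem en (n : ℕ) : EnStm n := by
  intro χ hχ hχc B hB hχB q hq hsym hpos A M hA hM
  -- cut-off
  set K : Set (Rn n) := tsupport χ with hK
  have hKc : IsCompact K := hχc
  have hKm : MeasurableSet K := hKc.measurableSet
  obtain ⟨ρ, hρ, hρ1, hρ0⟩ := cut hKc.isClosed hB hχB
  set Q : Fin n → Fin n → Rn n → ℝ := fun i j x => ρ x * q i j x with hQdef
  have hQ : ∀ i j, ContDiff ℝ ∞ (Q i j) := fun i j => cut_mul_smooth hB hρ hρ0 (hq i j)
  have hQq : ∀ x ∈ K, ∀ᶠ y in 𝓝 x, ∀ i j, Q i j y = q i j y := fun x hx => by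
    filter_upwards [hρ1 x hx] with y hy i j
    simp only [hQdef, hy, one_mul]
  obtain ⟨lam, hlam, hell⟩ := elliptic hKc (fun i j => (hQ i j).continuous) (fun x hx ξ hξ => by
    have e := (hQq x hx).self_of_nhds
    simp only [e]
    exact hpos x (hχB hx) ξ hξ)
  -- bounds
  obtain ⟨K1, hK10, hK1⟩ := bdd_fam (f := fun p : Fin n × Fin n => Q p.1 p.2)
    (fun p => (hQ p.1 p.2).continuous) hKc
  obtain ⟨K2, hK20, hK2⟩ := bdd_fam (f := fun p : Fin n × Fin n × Fin n => D p.1 (Q p.2.1 p.2.2))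
    (fun p => (D_smooth (hQ _ _)).continuous) hKc
  obtain ⟨K3, hK30, hK3⟩ := bdd_fam (f := fun _ : Unit => χ) (fun _ => hχ.continuous) hKc
  obtain ⟨K4, hK40, hK4⟩ := bdd_fam (f := fun j : Fin n => D j χ)
    (fun j => (D_smooth hχ).continuous) hKc
  set K0 : ℝ := K1 + K2 + K3 + K4 with hK0
  have hK00 : 0 ≤ K0 := by positivity
  set M' : ℝ := M + n * (K2 * A) with hM'
  have hM'0 : 0 ≤ M' := by positivity
  obtain ⟨C1, hC10, halg⟩ := alg (n := n) (I := Fin 2 × Fin n) lam K0 M' A hlam hK00 hM'0 hA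
  refine ⟨64 / (9 * lam) * (C1 * (volume : Measure (Rn n)).real K), ?_⟩
  intro g ε hg hε hgA hgM
  set W : Fin 2 → Rn n → ℝ := ![fun y => (g y).re, fun y => (g y).im] with hW
  have hWs : ∀ c, ContDiff ℝ ∞ (W c) := by
    intro c
    fin_cases c
    · exact Complex.reCLM.contDiff.comp hg
    · exact Complex.imCLM.contDiff.comp hg
  have hdg : ∀ x, DifferentiableAt ℝ g x := fun x => hg.differentiable (by simp) x
  have hdk : ∀ k x, DifferentiableAt ℝ (pd k g) x := fun k x =>
    (pd_smooth hg k).differentiable (by simp) x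
  have hu0 : ∀ k, uu W (0, k) = fun x => (pd k g x).re := fun k =>
    funext fun x => ((pd_re (hdg x) k).1).symm
  have hu1 : ∀ k, uu W (1, k) = fun x => (pd k g x).im := fun k =>
    funext fun x => ((pd_re (hdg x) k).2).symm
  have hH0 : ∀ j k x, D j (uu W (0, k)) x = (pd j (pd k g) x).re := fun j k x => by
    rw [hu0]; exact ((pd_re (hdk k x) j).1).symm
  have hH1 : ∀ j k x, D j (uu W (1, k)) x = (pd j (pd k g) x).im := fun j k x => by
    rw [hu1]; exact ((pd_re (hdk k x) j).2).symm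
  have hs : ∀ x, ss W x = ∑ k, ‖pd k g x‖ ^ 2 := by
    intro x
    unfold ss
    rw [Fintype.sum_prod_type, Fin.sum_univ_two, ← Finset.sum_add_distrib]
    refine Finset.sum_congr rfl fun k _ => ?_
    rw [hu0, hu1, ← Complex.normSq_eq_norm_sq, Complex.normSq_apply]
  have hHH : ∀ x, ∑ m, ∑ j, D j (uu W m) x ^ 2 = ∑ k, ∑ j, ‖pd j (pd k g) x‖ ^ 2 := by
    intro x
    rw [Fintype.sum_prod_type, Fin.sum_univ_two, ← Finset.sum_add_distrib]
    refine Finset.sum_congr rfl fun k _ => ?_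
    rw [← Finset.sum_add_distrib]
    refine Finset.sum_congr rfl fun j _ => ?_
    rw [hH0, hH1, ← Complex.normSq_eq_norm_sq, Complex.normSq_apply]
    ring
  have hHS0 : ∀ x, 0 ≤ ∑ m, ∑ j, D j (uu W m) x ^ 2 := fun x =>
    Finset.sum_nonneg fun m _ => Finset.sum_nonneg fun j _ => sq_nonneg _
  -- the divergence
  have hdiv : ∀ x ∈ K, ∀ c, |∑ l, D l (PP Q W c l) x| ≤ ‖∑ j, pd j (VV q g j) x‖ := by
    intro x hx
    have e1 : ∀ j, pd j (VV q g j) x = pd j (VV Q g j) x := by
      intro j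
      unfold pd
      have : VV q g j =ᶠ[𝓝 x] VV Q g j := by
        filter_upwards [hQq x hx] with y hy
        unfold VV
        exact Finset.sum_congr rfl fun i _ => by rw [hy]
      rw [this.fderiv_eq]
    have hVs : ∀ j, ContDiff ℝ ∞ (VV Q g j) := fun j => ContDiff.sum fun i _ =>
      (Complex.ofRealCLM.contDiff.comp (hQ i j)).mul (pd_smooth hg i)
    have e2 : ∀ j, (pd j (VV Q g j) x).re = D j (PP Q W 0 j) x ∧
        (pd j (VV Q g j) x).im = D j (PP Q W 1 j) x := by
      intro j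
      have h := pd_re ((hVs j).differentiable (by simp) x) j
      have a0 : (fun y => (VV Q g j y).re) = PP Q W 0 j := by
        funext y
        unfold VV PP
        rw [Complex.re_sum]
        refine Finset.sum_congr rfl fun i _ => ?_
        rw [hu0]
        simp
      have a1 : (fun y => (VV Q g j y).im) = PP Q W 1 j := by
        funext y
        unfold VV PP
        rw [Complex.im_sum]
        refine Finset.sum_congr rfl fun i _ => ?_
        rw [hu1]
        simp
      rw [a0, a1] at h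
      exact h
    intro c
    fin_cases c
    · have : ∑ l, D l (PP Q W 0 l) x = (∑ j, pd j (VV q g j) x).re := by
        rw [Complex.re_sum]
        exact Finset.sum_congr rfl fun j _ => by rw [e1, (e2 j).1]
      show |∑ l, D l (PP Q W 0 l) x| ≤ _
      rw [this]
      exact Complex.abs_re_le_norm _
    · have : ∑ l, D l (PP Q W 1 l) x = (∑ j, pd j (VV q g j) x).im := by
        rw [Complex.im_sum]
        exact Finset.sum_congr rfl fun j _ => by rw [e1, (e2 j).2]
      show |∑ l, D l (PP Q W 1 l) x| ≤ _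
      rw [this]
      exact Complex.abs_im_le_norm _
  -- the pointwise inequality
  have hpt : ∀ x, lam / 2 * (χ x ^ 2 * FF ε (ss W x) * ∑ m, ∑ j, D j (uu W m) x ^ 2) ≤
      -TL ε χ Q W x + K.indicator (fun _ => C1) x := by
    intro x
    rw [TL_eq hε hχ hQ hWs]
    by_cases hx : x ∈ K
    · rw [indicator_of_mem hx]
      rcases le_or_gt (ss W x) (ε ^ 2) with h | h
      · rw [FF_low h, FD_low h]
        simpa using hC10
      · have h1 : ∀ m, uu W m x ^ 2 ≤ ss W x := by
          intro m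
          unfold ss
          have := Finset.single_le_sum (f := fun m => uu W m x * uu W m x)
            (fun m _ => mul_self_nonneg _) (Finset.mem_univ m)
          rw [sq]
          exact this
        have hu : ∀ m, |uu W m x| ≤ A := by
          intro m
          exact abs_le_of_sq_le_sq ((h1 m).trans ((hs x).le.trans (hgA x hx))) hA
        have hFL : ∀ m j, |FL Q W x m j| ≤ M' := by
          intro m j
          unfold FL
          refine (abs_sub _ _).trans (add_le_add ?_ ?_)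
          · split_ifs
            · exact (hdiv x hx m.1).trans (hgM x hx (by rw [← hs]; exact h.le))
            · rw [abs_zero]; exact hM
          · refine (Finset.abs_sum_le_sum_abs _ _).trans ?_
            have h2 : ∀ i, |D m.2 (Q i j) x * uu W (m.1, i) x| ≤ K2 * A := fun i => by
              rw [abs_mul]
              exact mul_le_mul (hK2 (m.2, i, j) x hx) (hu _) (abs_nonneg _) hK20
            exact (Finset.sum_le_sum fun i _ => h2 i).trans (by simp)
        have h3 := halg (fun i j => Q i j x) (χ x) (FF ε (ss W x)) (FD ε (ss W x))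
          (fun j => D j χ x) (fun j => D j (ss W) x) (fun m => uu W m x)
          (fun m j => D j (uu W m) x) (FL Q W x) (hell x hx)
          (fun i j => (hK1 (i, j) x hx).trans (by rw [hK0]; linarith))
          ((hK3 () x hx).trans (by rw [hK0]; linarith))
          (fun j => (hK4 j x hx).trans (by rw [hK0]; linarith))
          (FF_nonneg _ _) (FF_le_one hε _) (FD_nonneg _) hu (fun m => FD_mul_le hε (h1 m))
          (fun j => D_ss hWs j x) hFL
        linarith
    · rw [indicator_of_notMem hx]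
      have h0 : χ x = 0 := image_eq_zero_of_notMem_tsupport hx
      rw [h0]
      simp
  -- the comparison function
  set R : Rn n → ℝ := fun x => 64 / (9 * lam) * (-TL ε χ Q W x + K.indicator (fun _ => C1) x)
    with hR
  have hT := TL_int hε hχ hχc hQ hWs
  have hKint : Integrable (K.indicator (fun _ => C1)) (volume : Measure (Rn n)) := by
    rw [integrable_indicator_iff hKm]
    exact integrableOn_const hKc.measure_lt_top.ne
  have hTK : Integrable (fun x => -TL ε χ Q W x + K.indicator (fun _ => C1) x)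
    (volume : Measure (Rn n)) := hT.1.neg.add hKint
  have hRint : Integrable R (volume : Measure (Rn n)) := hTK.const_mul _
  have hR0 : ∀ x, 0 ≤ R x := by
    intro x
    refine mul_nonneg (by positivity) (le_trans ?_ (hpt x))
    have h1 := hHS0 x
    have h2 := FF_nonneg ε (ss W x)
    positivity
  have hp : ∀ k j : Fin n, Continuous (fun x => pd j (pd k g) x) := fun k j =>
    (pd_smooth (pd_smooth hg k) j).continuous
  have hcont : Continuous (fun x => χ x ^ 2 * (∑ k, ∑ j, ‖pd j (pd k g) x‖ ^ 2)) :=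
    (hχ.continuous.pow 2).mul (continuous_finsetSum _ fun k _ =>
      continuous_finsetSum _ fun j _ => (hp k j).norm.pow 2)
  have hcs : HasCompactSupport (fun x => χ x ^ 2 * (∑ k, ∑ j, ‖pd j (pd k g) x‖ ^ 2)) := by
    have h1 : HasCompactSupport (fun x => χ x * (χ x * (∑ k, ∑ j, ‖pd j (pd k g) x‖ ^ 2))) :=
      hχc.mul_right
    have e : (fun x => χ x ^ 2 * (∑ k, ∑ j, ‖pd j (pd k g) x‖ ^ 2))
        = (fun x => χ x * (χ x * (∑ k, ∑ j, ‖pd j (pd k g) x‖ ^ 2))) := by
      funext x; ring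
    rw [e]; exact h1
  have hSm : MeasurableSet {x : Rn n | (2 * ε) ^ 2 ≤ ∑ k, ‖pd k g x‖ ^ 2} :=
    (isClosed_le continuous_const (continuous_finsetSum _ fun k _ =>
      (pd_smooth hg k).continuous.norm.pow 2)).measurableSet
  have hle : ∀ x ∈ {x : Rn n | (2 * ε) ^ 2 ≤ ∑ k, ‖pd k g x‖ ^ 2},
      χ x ^ 2 * (∑ k, ∑ j, ‖pd j (pd k g) x‖ ^ 2) ≤ R x := by
    intro x hx
    have hx : (2 * ε) ^ 2 ≤ ss W x := by rw [hs]; exact hx
    have h9 := FF_ge hε hx
    rw [← hHH x]
    have h1 : 0 ≤ χ x ^ 2 * ∑ m, ∑ j, D j (uu W m) x ^ 2 := mul_nonneg (sq_nonneg _) (hHS0 x)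
    have h2 := mul_le_mul_of_nonneg_left (hpt x) (show 0 ≤ 64 / (9 * lam) by positivity)
    have e : 64 / (9 * lam) * (lam / 2 * (χ x ^ 2 * FF ε (ss W x) *
        ∑ m, ∑ j, D j (uu W m) x ^ 2)) =
        (32 / 9 * FF ε (ss W x)) * (χ x ^ 2 * ∑ m, ∑ j, D j (uu W m) x ^ 2) := by
      field_simp
      ring
    rw [e] at h2
    have h3 : 1 * (χ x ^ 2 * ∑ m, ∑ j, D j (uu W m) x ^ 2) ≤
        (32 / 9 * FF ε (ss W x)) * (χ x ^ 2 * ∑ m, ∑ j, D j (uu W m) x ^ 2) :=
      mul_le_mul_of_nonneg_right (by linarith) h1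
    rw [one_mul] at h3
    exact h3.trans h2
  calc ∫ x in {x | (2 * ε) ^ 2 ≤ ∑ k, ‖pd k g x‖ ^ 2},
        χ x ^ 2 * (∑ k, ∑ j, ‖pd j (pd k g) x‖ ^ 2)
      ≤ ∫ x in {x | (2 * ε) ^ 2 ≤ ∑ k, ‖pd k g x‖ ^ 2}, R x :=
        setIntegral_mono_on (hcont.integrable_of_hasCompactSupport hcs).integrableOn
          hRint.integrableOn hSm hle
    _ ≤ ∫ x, R x := setIntegral_le_integral hRint (Eventually.of_forall hR0)
    _ = 64 / (9 * lam) * (C1 * (volume : Measure (Rn n)).real K) := by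
        have h1 : ∫ x, (-TL ε χ Q W x + K.indicator (fun _ => C1) x) =
            (∫ x, -TL ε χ Q W x) + ∫ x, K.indicator (fun _ => C1) x :=
          integral_add hT.1.neg hKint
        simp only [hR]
        rw [integral_const_mul, h1, integral_neg, hT.2, neg_zero,
          zero_add, integral_indicator hKm, setIntegral_const, smul_eq_mul]
        ring

end Pool.Agent.H256.RN
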