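import Mathlib

/-!
# The algebra of the energy estimate in `ℝⁿ` (RN1-EN, helper308)
-/

set_option autoImplicit false

noncomputable section

namespace Pool.Agent.H256.RN.EnAux

lemma amgm1 {δ F H w : ℝ} (hδ : 0 < δ) (hw : 0 ≤ w) :
    F * (w * H) ≤ δ * w * H ^ 2 + w * F ^ 2 / (4 * δ) := by
  have h : 0 ≤ w * (δ * H - F / 2) ^ 2 / δ := by positivity
  have e : w * (δ * H - F / 2) ^ 2 / δ = δ * w * H ^ 2 - F * (w * H) + w * F ^ 2 / (4 * δ) := by
    field_simp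
    ring
  linarith

theorem alg {n : ℕ} {I : Type} [Fintype I] (lam K M A : ℝ) (hlam : 0 < lam) (hK : 0 ≤ K)
    (hM : 0 ≤ M) (hA : 0 ≤ A) : ∃ C : ℝ, 0 ≤ C ∧ ∀ (q : Fin n → Fin n → ℝ) (c ψ ψ' : ℝ)
      (cd sd : Fin n → ℝ) (u : I → ℝ) (H F : I → Fin n → ℝ),
    (∀ ξ : Fin n → ℝ, lam * ∑ i, ξ i ^ 2 ≤ ∑ i, ∑ j, q i j * ξ i * ξ j) →
    (∀ i j, |q i j| ≤ K) → |c| ≤ K → (∀ j, |cd j| ≤ K) → 0 ≤ ψ → ψ ≤ 1 → 0 ≤ ψ' →
    (∀ m, |u m| ≤ A) → (∀ m, ψ' * u m ^ 2 ≤ 1) → (∀ j, sd j = 2 * ∑ m, u m * H m j) →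
    (∀ m j, |F m j| ≤ M) →
    ∑ m, ∑ j, (F m j - ∑ i, q i j * H m i) *
        (c ^ 2 * ψ * H m j + (2 * c * cd j * ψ + c ^ 2 * ψ' * sd j) * u m) ≤
      -(lam / 2) * (c ^ 2 * ψ * ∑ m, ∑ j, H m j ^ 2) + C := by
  set δ : ℝ := lam / (2 * (n + 1 + Fintype.card I)) with hδ
  have hδ0 : 0 < δ := by positivity
  have hδ1 : (1 + n) * δ ≤ lam / 2 := by
    rw [hδ]
    rw [mul_div_assoc', div_le_div_iff₀ (by positivity) (by norm_num)]
    have : (0:ℝ) ≤ Fintype.card I := Nat.cast_nonneg _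
    nlinarith
  have hδ2 : (Fintype.card I) * δ ≤ lam / 2 := by
    rw [hδ]
    rw [mul_div_assoc', div_le_div_iff₀ (by positivity) (by norm_num)]
    have : (0:ℝ) ≤ n := Nat.cast_nonneg _
    nlinarith
  set c1 : ℝ := K ^ 2 * M ^ 2 / (4 * δ) + 2 * K ^ 2 * M * A + K ^ 2 * M ^ 2 / (4 * δ) with hc1
  set c2 : ℝ := K ^ 4 * A ^ 2 / δ with hc2
  have hc10 : 0 ≤ c1 := by positivity
  have hc20 : 0 ≤ c2 := by positivity
  refine ⟨Fintype.card I * (n * c1) + Fintype.card I * (n * (n * c2)), by positivity, ?_⟩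
  intro q c ψ ψ' cd sd u H F hq hqK hc hcd hψ0 hψ1 hψ' hu hψu hsd hF
  set HS : ℝ := ∑ m, ∑ j, H m j ^ 2 with hHS
  set SS : ℝ := ∑ j, sd j ^ 2 with hSS
  have hHS0 : 0 ≤ HS := Finset.sum_nonneg fun m _ => Finset.sum_nonneg fun j _ => sq_nonneg _
  have hSS0 : 0 ≤ SS := Finset.sum_nonneg fun j _ => sq_nonneg _
  have hcK : c ^ 2 ≤ K ^ 2 := by
    rw [← sq_abs]; exact pow_le_pow_left₀ (abs_nonneg _) hc 2
  have hcψ : 0 ≤ c ^ 2 * ψ := by positivity
  have hcψ' : 0 ≤ c ^ 2 * ψ' := by positivity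
  have hF2 : ∀ m j, F m j ^ 2 ≤ M ^ 2 := fun m j => by
    rw [← sq_abs]; exact pow_le_pow_left₀ (abs_nonneg _) (hF m j) 2
  -- first part
  have S1 : ∀ m j, F m j * (c ^ 2 * ψ * H m j + (2 * c * cd j * ψ + c ^ 2 * ψ' * sd j) * u m) ≤
      δ * (c ^ 2 * ψ) * H m j ^ 2 + δ * (c ^ 2 * ψ') * sd j ^ 2 + c1 := by
    intro m j
    have h1 := amgm1 (F := F m j) (H := H m j) hδ0 hcψ
    have h1' : c ^ 2 * ψ * F m j ^ 2 / (4 * δ) ≤ K ^ 2 * M ^ 2 / (4 * δ) := by
      refine div_le_div_of_nonneg_right ?_ (by positivity)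
      calc c ^ 2 * ψ * F m j ^ 2 ≤ K ^ 2 * 1 * M ^ 2 := by
            refine mul_le_mul (mul_le_mul hcK hψ1 hψ0 (by positivity)) (hF2 m j) (sq_nonneg _)
              (by positivity)
        _ = K ^ 2 * M ^ 2 := by ring
    have h2 : F m j * (2 * c * cd j * ψ * u m) ≤ 2 * K ^ 2 * M * A := by
      refine (le_abs_self _).trans ?_
      have e : |F m j * (2 * c * cd j * ψ * u m)| = 2 * (|F m j| * |c| * |cd j| * ψ * |u m|) := by
        simp only [abs_mul, abs_two, abs_of_nonneg hψ0]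
        ring
      rw [e]
      have : |F m j| * |c| * |cd j| * ψ * |u m| ≤ M * K * K * 1 * A := by
        have a1 := hF m j
        have a2 := hcd j
        have a3 := hu m
        gcongr
      nlinarith
    have h3 := amgm1 (F := F m j * u m) (H := sd j) hδ0 hcψ'
    have h3' : c ^ 2 * ψ' * (F m j * u m) ^ 2 / (4 * δ) ≤ K ^ 2 * M ^ 2 / (4 * δ) := by
      refine div_le_div_of_nonneg_right ?_ (by positivity)
      calc c ^ 2 * ψ' * (F m j * u m) ^ 2 = c ^ 2 * F m j ^ 2 * (ψ' * u m ^ 2) := by ring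
        _ ≤ K ^ 2 * M ^ 2 * 1 := by
            refine mul_le_mul (mul_le_mul hcK (hF2 m j) (sq_nonneg _) (by positivity)) (hψu m)
              (by positivity) (by positivity)
        _ = K ^ 2 * M ^ 2 := by ring
    have e : F m j * (c ^ 2 * ψ * H m j + (2 * c * cd j * ψ + c ^ 2 * ψ' * sd j) * u m) =
        F m j * (c ^ 2 * ψ * H m j) + F m j * (2 * c * cd j * ψ * u m) +
          (F m j * u m) * (c ^ 2 * ψ' * sd j) := by ring
    rw [e, hc1]
    linarith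
  -- the cross term
  have S2 : ∀ m j i, -(q i j * H m i * (2 * c * cd j * ψ * u m)) ≤
      δ * (c ^ 2 * ψ) * H m i ^ 2 + c2 := by
    intro m j i
    have h1b : -(q i j * cd j * u m) * (ψ * (2 * c * H m i)) ≤
        δ * (c ^ 2 * ψ) * H m i ^ 2 + ψ * (q i j * cd j * u m) ^ 2 / δ := by
      have h : 0 ≤ ψ * (δ * (c * H m i) + q i j * cd j * u m) ^ 2 / δ := by positivity
      have e : ψ * (δ * (c * H m i) + q i j * cd j * u m) ^ 2 / δ =
          δ * (c ^ 2 * ψ) * H m i ^ 2 + q i j * cd j * u m * (ψ * (2 * c * H m i)) +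
            ψ * (q i j * cd j * u m) ^ 2 / δ := by
        field_simp
        ring
      linarith
    have h2 : ψ * (q i j * cd j * u m) ^ 2 / δ ≤ c2 := by
      rw [hc2]
      refine div_le_div_of_nonneg_right ?_ hδ0.le
      have h3 : |q i j * cd j * u m| ≤ K * K * A := by
        rw [abs_mul, abs_mul]
        exact mul_le_mul (mul_le_mul (hqK i j) (hcd j) (abs_nonneg _) hK) (hu m) (abs_nonneg _)
          (by positivity)
      have h4 : (q i j * cd j * u m) ^ 2 ≤ (K * K * A) ^ 2 := by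
        rw [← sq_abs]; exact pow_le_pow_left₀ (abs_nonneg _) h3 2
      calc ψ * (q i j * cd j * u m) ^ 2 ≤ 1 * (K * K * A) ^ 2 :=
            mul_le_mul hψ1 h4 (sq_nonneg _) zero_le_one
        _ = K ^ 4 * A ^ 2 := by ring
    have e : -(q i j * H m i * (2 * c * cd j * ψ * u m)) =
        -(q i j * cd j * u m) * (ψ * (2 * c * H m i)) := by ring
    rw [e]
    linarith
  -- the main terms
  have S3 : ∑ m, ∑ j, (∑ i, q i j * H m i) * (c ^ 2 * ψ * H m j) ≥ lam * (c ^ 2 * ψ * HS) := by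
    have h1 : ∀ m, (∑ j, (∑ i, q i j * H m i) * (c ^ 2 * ψ * H m j)) =
        c ^ 2 * ψ * ∑ i, ∑ j, q i j * H m i * H m j := by
      intro m
      rw [Finset.sum_comm (f := fun i j => q i j * H m i * H m j), Finset.mul_sum]
      refine Finset.sum_congr rfl fun j _ => ?_
      rw [Finset.sum_mul, Finset.mul_sum]
      exact Finset.sum_congr rfl fun i _ => by ring
    simp_rw [h1]
    rw [hHS, Finset.mul_sum, Finset.mul_sum]
    refine Finset.sum_le_sum fun m _ => ?_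
    calc lam * (c ^ 2 * ψ * ∑ j, H m j ^ 2) = c ^ 2 * ψ * (lam * ∑ j, H m j ^ 2) := by ring
      _ ≤ _ := mul_le_mul_of_nonneg_left (hq (H m)) hcψ
  have S4 : ∑ m, ∑ j, (∑ i, q i j * H m i) * (c ^ 2 * ψ' * sd j * u m) ≥
      lam / 2 * (c ^ 2 * ψ' * SS) := by
    have h1 : ∑ m, ∑ j, (∑ i, q i j * H m i) * (c ^ 2 * ψ' * sd j * u m) =
        c ^ 2 * ψ' / 2 * ∑ i, ∑ j, q i j * sd i * sd j := by
      rw [Finset.sum_comm, Finset.sum_comm (f := fun i j => q i j * sd i * sd j), Finset.mul_sum]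
      refine Finset.sum_congr rfl fun j _ => ?_
      have h2 : ∀ i, q i j * sd i * sd j = ∑ m, 2 * (q i j * H m i * (sd j * u m)) := by
        intro i
        nth_rewrite 1 [hsd i]
        rw [← mul_assoc, Finset.mul_sum, Finset.sum_mul]
        exact Finset.sum_congr rfl fun m _ => by ring
      simp_rw [h2]
      rw [Finset.sum_comm, Finset.mul_sum]
      refine Finset.sum_congr rfl fun m _ => ?_
      rw [Finset.sum_mul, Finset.mul_sum]
      exact Finset.sum_congr rfl fun i _ => by ring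
    rw [h1]
    have h2 := hq sd
    calc lam / 2 * (c ^ 2 * ψ' * SS) = c ^ 2 * ψ' / 2 * (lam * ∑ i, sd i ^ 2) := by
          rw [hSS]; ring
      _ ≤ _ := mul_le_mul_of_nonneg_left h2 (by positivity)
  have T1 : ∑ m, ∑ j, F m j *
      (c ^ 2 * ψ * H m j + (2 * c * cd j * ψ + c ^ 2 * ψ' * sd j) * u m) ≤
      δ * (c ^ 2 * ψ) * HS + Fintype.card I * (δ * (c ^ 2 * ψ') * SS) +
        Fintype.card I * (n * c1) := by
    refine (Finset.sum_le_sum fun m _ => Finset.sum_le_sum fun j _ => S1 m j).trans (le_of_eq ?_)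
    simp_rw [Finset.sum_add_distrib, ← Finset.mul_sum]
    simp only [Finset.sum_const, Finset.card_univ, Fintype.card_fin, nsmul_eq_mul]
    rw [hHS, hSS]
    ring
  have T2 : -(∑ m, ∑ j, (∑ i, q i j * H m i) * (2 * c * cd j * ψ * u m)) ≤
      n * (δ * (c ^ 2 * ψ) * HS) + Fintype.card I * (n * (n * c2)) := by
    have h1 : -(∑ m, ∑ j, (∑ i, q i j * H m i) * (2 * c * cd j * ψ * u m)) =
        ∑ m, ∑ j, ∑ i, -(q i j * H m i * (2 * c * cd j * ψ * u m)) := by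
      rw [← Finset.sum_neg_distrib]
      refine Finset.sum_congr rfl fun m _ => ?_
      rw [← Finset.sum_neg_distrib]
      refine Finset.sum_congr rfl fun j _ => ?_
      rw [Finset.sum_mul, ← Finset.sum_neg_distrib]
    rw [h1]
    refine (Finset.sum_le_sum fun m _ => Finset.sum_le_sum fun j _ =>
      Finset.sum_le_sum fun i _ => S2 m j i).trans (le_of_eq ?_)
    simp_rw [Finset.sum_add_distrib, ← Finset.mul_sum]
    simp only [Finset.sum_const, Finset.card_univ, Fintype.card_fin, nsmul_eq_mul]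
    rw [hHS]
    simp_rw [← Finset.mul_sum]
    ring
  have e : ∑ m, ∑ j, (F m j - ∑ i, q i j * H m i) *
        (c ^ 2 * ψ * H m j + (2 * c * cd j * ψ + c ^ 2 * ψ' * sd j) * u m) =
      (∑ m, ∑ j, F m j * (c ^ 2 * ψ * H m j + (2 * c * cd j * ψ + c ^ 2 * ψ' * sd j) * u m)) +
      -(∑ m, ∑ j, (∑ i, q i j * H m i) * (2 * c * cd j * ψ * u m)) -
      (∑ m, ∑ j, (∑ i, q i j * H m i) * (c ^ 2 * ψ * H m j)) -
      ∑ m, ∑ j, (∑ i, q i j * H m i) * (c ^ 2 * ψ' * sd j * u m) := by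
    simp only [← Finset.sum_neg_distrib, ← Finset.sum_sub_distrib, ← Finset.sum_add_distrib]
    refine Finset.sum_congr rfl fun m _ => Finset.sum_congr rfl fun j _ => ?_
    ring
  rw [e]
  have f1 : (1 + n) * δ * (c ^ 2 * ψ * HS) ≤ lam / 2 * (c ^ 2 * ψ * HS) :=
    mul_le_mul_of_nonneg_right hδ1 (by positivity)
  have f2 : (Fintype.card I) * δ * (c ^ 2 * ψ' * SS) ≤ lam / 2 * (c ^ 2 * ψ' * SS) :=
    mul_le_mul_of_nonneg_right hδ2 (by positivity)
  nlinarith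

end Pool.Agent.H256.RN.EnAux
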