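import Pool.Agent.H256.RN.Stm
import Pool.Agent.H256.RD.En

/-!
# Real partial derivatives in `ℝⁿ` (RN1-EN, helper308)
-/

open MeasureTheory Set Filter Topology
open scoped ContDiff

set_option autoImplicit false

noncomputable section

namespace Pool.Agent.H256.RN

namespace EnAux

open Pool.Agent.H256.RD.EnAux (FF FD FF_nonneg FF_low FD_low FF_high FD_high FF_hasDerivAt
  FF_contDiff FD_cont)

variable {n : ℕ}

/-- directional derivative of a real function -/
def D (k : Fin n) (f : Rn n → ℝ) (x : Rn n) : ℝ :=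
  fderiv ℝ f x (EuclideanSpace.single k (1 : ℝ))

theorem D_mul {k : Fin n} {f h : Rn n → ℝ} {x : Rn n} (hf : DifferentiableAt ℝ f x)
    (hh : DifferentiableAt ℝ h x) :
    D k (fun y => f y * h y) x = D k f x * h x + f x * D k h x := by
  unfold D
  rw [fderiv_fun_mul hf hh]
  simp
  ring

theorem D_sum {ι : Type} [Fintype ι] {k : Fin n} {f : ι → Rn n → ℝ} {x : Rn n}
    (hf : ∀ i, DifferentiableAt ℝ (f i) x) :
    D k (fun y => ∑ i, f i y) x = ∑ i, D k (f i) x := by
  unfold D
  rw [fderiv_fun_sum (fun i _ => hf i)]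
  simp

theorem D_smooth {k : Fin n} {f : Rn n → ℝ} (hf : ContDiff ℝ ∞ f) : ContDiff ℝ ∞ (D k f) := by
  unfold D
  exact (hf.fderiv_right (m := ∞) (by simp)).clm_apply contDiff_const

theorem D_comm {f : Rn n → ℝ} (hf : ContDiff ℝ ∞ f) (j k : Fin n) (x : Rn n) :
    D j (D k f) x = D k (D j f) x := by
  have hsym : IsSymmSndFDerivAt ℝ f x :=
    (hf.contDiffAt (x := x)).isSymmSndFDerivAt (by
      rw [minSmoothness_of_isRCLikeNormedField]; exact ENat.LEInfty.out)
  have hd : DifferentiableAt ℝ (fderiv ℝ f) x :=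
    ((hf.fderiv_right (m := ∞) (by simp)).differentiable (by simp)) x
  have key : ∀ (a b : Fin n), D a (D b f) x
      = fderiv ℝ (fderiv ℝ f) x (EuclideanSpace.single a (1 : ℝ))
          (EuclideanSpace.single b (1 : ℝ)) := by
    intro a b
    unfold D
    rw [fderiv_clm_apply hd (differentiableAt_const _)]
    simp
  rw [key, key]
  exact hsym _ _

theorem D_continuous {k : Fin n} {f : Rn n → ℝ} (hf : ContDiff ℝ 1 f) : Continuous (D k f) := by
  unfold D
  exact (hf.continuous_fderiv (by simp)).clm_apply continuous_const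

theorem D_integrable {k : Fin n} {f : Rn n → ℝ} (hf : ContDiff ℝ 1 f) (hc : HasCompactSupport f) :
    Integrable (D k f) (volume : Measure (Rn n)) :=
  (D_continuous hf).integrable_of_hasCompactSupport (hc.fderiv_apply (𝕜 := ℝ) _)

theorem D_int {k : Fin n} {f : Rn n → ℝ} (hf : ContDiff ℝ 1 f) (hc : HasCompactSupport f) :
    ∫ x, D k f x = 0 := by
  have hcont : Continuous (D k f) := D_continuous hf
  have hcs : HasCompactSupport (D k f) := hc.fderiv_apply (𝕜 := ℝ) _
  have h1 : Integrable (fun x : Rn n => fderiv ℝ (fun _ : Rn n => (1 : ℝ)) x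
      (EuclideanSpace.single k (1 : ℝ)) * f x) volume := by
    have e : (fun x : Rn n => fderiv ℝ (fun _ : Rn n => (1 : ℝ)) x
      (EuclideanSpace.single k (1 : ℝ)) * f x) = fun _ => (0 : ℝ) := by
      funext x; simp
    rw [e]; exact integrable_zero _ _ _
  have h2 : Integrable (fun x : Rn n => (1 : ℝ) * fderiv ℝ f x
      (EuclideanSpace.single k (1 : ℝ))) volume := by
    have e : (fun x : Rn n => (1 : ℝ) * fderiv ℝ f x
      (EuclideanSpace.single k (1 : ℝ))) = D k f := by
      funext x; simp [D]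
    rw [e]; exact hcont.integrable_of_hasCompactSupport hcs
  have h3 : Integrable (fun x : Rn n => (1 : ℝ) * f x) volume := by
    have e : (fun x : Rn n => (1 : ℝ) * f x) = f := by
      funext x; simp
    rw [e]; exact hf.continuous.integrable_of_hasCompactSupport hc
  have h := integral_mul_fderiv_eq_neg_fderiv_mul_of_integrable (μ := (volume : Measure (Rn n)))
    (f := fun _ : Rn n => (1 : ℝ)) (g := f) (v := EuclideanSpace.single k (1 : ℝ))
    h1 h2 h3 (fun x _ => differentiableAt_const _) (fun x _ => hf.differentiable (by simp) x)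
  have e1 : ∀ x : Rn n, (1 : ℝ) * fderiv ℝ f x (EuclideanSpace.single k (1 : ℝ)) = D k f x :=
    fun x => by simp [D]
  have e2 : ∀ x : Rn n, fderiv ℝ (fun _ : Rn n => (1 : ℝ)) x
      (EuclideanSpace.single k (1 : ℝ)) * f x = 0 := fun x => by simp
  simp only [e1, e2] at h
  rw [h]; simp

theorem D_comp {ε : ℝ} (hε : 0 < ε) {k : Fin n} {s : Rn n → ℝ} {x : Rn n}
    (hs : DifferentiableAt ℝ s x) :
    D k (fun y => FF ε (s y)) x = FD ε (s x) * D k s x := by
  have h : HasFDerivAt (fun y => FF ε (s y)) (FD ε (s x) • fderiv ℝ s x) x :=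
    (FF_hasDerivAt hε (s x)).comp_hasFDerivAt x hs.hasFDerivAt
  unfold D
  rw [h.fderiv]
  simp

theorem D_congr {k : Fin n} {f h : Rn n → ℝ} {x : Rn n} (hf : f =ᶠ[𝓝 x] h) :
    D k f x = D k h x := by
  unfold D
  rw [hf.fderiv_eq]

/-- `∫ (∂_j P ∂_k v - ∂_k P ∂_j v) = 0`. -/
theorem div_free {P v : Rn n → ℝ} (hP : ContDiff ℝ ∞ P) (hv : ContDiff ℝ 1 v)
    (hc : HasCompactSupport v) (j k : Fin n) :
    Integrable (fun x => D j P x * D k v x - D k P x * D j v x) (volume : Measure (Rn n)) ∧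
      ∫ x, (D j P x * D k v x - D k P x * D j v x) = 0 := by
  have h1 : ∀ l : Fin n, ContDiff ℝ 1 (D l P) := fun l =>
    (D_smooth hP).of_le (by exact ENat.LEInfty.out)
  have hdv : ∀ x, DifferentiableAt ℝ v x := fun x => hv.differentiable (by simp) x
  have e : (fun x => D j P x * D k v x - D k P x * D j v x) =
      fun x => D k (fun y => D j P y * v y) x - D j (fun y => D k P y * v y) x := by
    funext x
    rw [D_mul ((h1 j).differentiable (by simp) x) (hdv x),
      D_mul ((h1 k).differentiable (by simp) x) (hdv x), D_comm hP k j x]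
    ring
  have c1 : ∀ l : Fin n, ContDiff ℝ 1 (fun y => D l P y * v y) := fun l => (h1 l).mul hv
  have c2 : ∀ l : Fin n, HasCompactSupport (fun y => D l P y * v y) := fun l => hc.mul_left
  rw [e]
  refine ⟨(D_integrable (c1 j) (c2 j)).sub (D_integrable (c1 k) (c2 k)), ?_⟩
  rw [integral_sub (D_integrable (c1 j) (c2 j)) (D_integrable (c1 k) (c2 k)),
    D_int (c1 j) (c2 j), D_int (c1 k) (c2 k), sub_zero]

theorem pd_re {g : Rn n → ℂ} {x : Rn n} (hg : DifferentiableAt ℝ g x) (k : Fin n) :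
    (pd k g x).re = D k (fun y => (g y).re) x ∧
      (pd k g x).im = D k (fun y => (g y).im) x := by
  have hd : HasFDerivAt g (fderiv ℝ g x) x := hg.hasFDerivAt
  have h1 : HasFDerivAt (fun y => (g y).re) (Complex.reCLM.comp (fderiv ℝ g x)) x :=
    Complex.reCLM.hasFDerivAt.comp x hd
  have h2 : HasFDerivAt (fun y => (g y).im) (Complex.imCLM.comp (fderiv ℝ g x)) x :=
    Complex.imCLM.hasFDerivAt.comp x hd
  unfold pd D
  rw [h1.fderiv, h2.fderiv]
  simp

theorem pd_smooth {g : Rn n → ℂ} (hg : ContDiff ℝ ∞ g) (k : Fin n) : ContDiff ℝ ∞ (pd k g) := by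
  unfold pd
  exact (hg.fderiv_right (m := ∞) (by simp)).clm_apply contDiff_const

theorem FD_nonneg {ε : ℝ} (s : ℝ) : 0 ≤ FD ε s := by
  unfold FD; positivity

theorem FF_le_one {ε : ℝ} (hε : 0 < ε) (s : ℝ) : FF ε s ≤ 1 := by
  unfold FF
  have h1 : max (s - ε ^ 2) 0 / (ε ^ 2 + max (s - ε ^ 2) 0) ≤ 1 := by
    rw [div_le_one (by positivity)]
    have : 0 ≤ ε ^ 2 := by positivity
    linarith
  have h0 : 0 ≤ max (s - ε ^ 2) 0 / (ε ^ 2 + max (s - ε ^ 2) 0) := by positivity
  nlinarith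

theorem FD_mul_le {ε : ℝ} (hε : 0 < ε) {s t : ℝ} (ht : t ≤ s) : FD ε s * t ≤ 1 := by
  rcases le_total s (ε ^ 2) with h | h
  · rw [FD_low h]; norm_num
  · have hs : 0 < s := lt_of_lt_of_le (by positivity) h
    refine (mul_le_mul_of_nonneg_left ht (FD_nonneg s)).trans ?_
    rw [FD_high h]
    have e : (s - ε ^ 2) * ε ^ 2 / s ^ 3 * s = ((s - ε ^ 2) * ε ^ 2) / s ^ 2 := by
      field_simp
    rw [e, div_le_one (by positivity)]
    have h1 : s - ε ^ 2 ≤ s := by linarith [sq_nonneg ε]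
    have h2 : 0 ≤ s - ε ^ 2 := by linarith
    nlinarith [sq_nonneg ε]

theorem FF_ge {ε : ℝ} (hε : 0 < ε) {s : ℝ} (h : (2 * ε) ^ 2 ≤ s) : 9 / 32 ≤ FF ε s := by
  have h1 : ε ^ 2 ≤ s := by nlinarith [sq_nonneg ε]
  have hs : 0 < s := lt_of_lt_of_le (by positivity) h1
  rw [FF_high h1]
  have h2 : 3 / 4 ≤ (s - ε ^ 2) / s := by
    rw [le_div_iff₀ hs]; nlinarith
  nlinarith

end EnAux

end Pool.Agent.H256.RN
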