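import Pool.Agent.H256.RN.EnD
import Pool.Agent.H256.RN.EnAlg

/-!
# The identity behind the energy estimate (RN1-EN, helper308)
-/

open MeasureTheory Set Filter Topology
open scoped ContDiff

set_option autoImplicit false

noncomputable section

namespace Pool.Agent.H256.RN

namespace EnAux

open Pool.Agent.H256.RD.EnAux (FF FD FF_nonneg FF_low FD_low FF_high FD_high FF_hasDerivAt
  FF_contDiff FD_cont)

variable {n : ℕ}

/-- `u_{c,k} = ∂_k W_c` -/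
def uu (W : Fin 2 → Rn n → ℝ) (m : Fin 2 × Fin n) (x : Rn n) : ℝ := D m.2 (W m.1) x

/-- `s = |∇W|²` -/
def ss (W : Fin 2 → Rn n → ℝ) (x : Rn n) : ℝ := ∑ m : Fin 2 × Fin n, uu W m x * uu W m x

/-- `P_{c,j} = ∑_i Q_{ij} ∂_i W_c` -/
def PP (Q : Fin n → Fin n → Rn n → ℝ) (W : Fin 2 → Rn n → ℝ) (c : Fin 2) (j : Fin n)
    (x : Rn n) : ℝ := ∑ i, Q i j x * uu W (c, i) x

/-- the test functions -/
def vv (ε : ℝ) (χ : Rn n → ℝ) (W : Fin 2 → Rn n → ℝ) (m : Fin 2 × Fin n) (x : Rn n) : ℝ :=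
  χ x * χ x * FF ε (ss W x) * uu W m x

/-- the null Lagrangian -/
def TL (ε : ℝ) (χ : Rn n → ℝ) (Q : Fin n → Fin n → Rn n → ℝ) (W : Fin 2 → Rn n → ℝ)
    (x : Rn n) : ℝ :=
  ∑ m : Fin 2 × Fin n, ∑ j, (D j (PP Q W m.1 j) x * D m.2 (vv ε χ W m) x -
    D m.2 (PP Q W m.1 j) x * D j (vv ε χ W m) x)

/-- lower order terms -/
def FL (Q : Fin n → Fin n → Rn n → ℝ) (W : Fin 2 → Rn n → ℝ) (x : Rn n)
    (m : Fin 2 × Fin n) (j : Fin n) : ℝ :=
  (if j = m.2 then ∑ l, D l (PP Q W m.1 l) x else 0) - ∑ i, D m.2 (Q i j) x * uu W (m.1, i) x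

theorem uu_smooth {W : Fin 2 → Rn n → ℝ} (hW : ∀ c, ContDiff ℝ ∞ (W c)) (m : Fin 2 × Fin n) :
    ContDiff ℝ ∞ (uu W m) := D_smooth (hW m.1)

theorem ss_smooth {W : Fin 2 → Rn n → ℝ} (hW : ∀ c, ContDiff ℝ ∞ (W c)) :
    ContDiff ℝ ∞ (ss W) := by
  unfold ss
  exact ContDiff.sum fun m _ => (uu_smooth hW m).mul (uu_smooth hW m)

theorem PP_smooth {Q : Fin n → Fin n → Rn n → ℝ} {W : Fin 2 → Rn n → ℝ}
    (hQ : ∀ i j, ContDiff ℝ ∞ (Q i j)) (hW : ∀ c, ContDiff ℝ ∞ (W c)) (c : Fin 2) (j : Fin n) :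
    ContDiff ℝ ∞ (PP Q W c j) := by
  unfold PP
  exact ContDiff.sum fun i _ => (hQ i j).mul (uu_smooth hW (c, i))

theorem vv_contDiff {ε : ℝ} (hε : 0 < ε) {χ : Rn n → ℝ} (hχ : ContDiff ℝ ∞ χ)
    {W : Fin 2 → Rn n → ℝ} (hW : ∀ c, ContDiff ℝ ∞ (W c)) (m : Fin 2 × Fin n) :
    ContDiff ℝ 1 (vv ε χ W m) := by
  have hχ' : ContDiff ℝ 1 χ := hχ.of_le (by exact ENat.LEInfty.out)
  have hu : ContDiff ℝ 1 (uu W m) := (uu_smooth hW m).of_le (by exact ENat.LEInfty.out)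
  have hs : ContDiff ℝ 1 (ss W) := (ss_smooth hW).of_le (by exact ENat.LEInfty.out)
  have hF : ContDiff ℝ 1 (fun y => FF ε (ss W y)) := (FF_contDiff hε).comp hs
  exact ((hχ'.mul hχ').mul hF).mul hu

theorem vv_cs {ε : ℝ} {χ : Rn n → ℝ} (hc : HasCompactSupport χ) {W : Fin 2 → Rn n → ℝ}
    (m : Fin 2 × Fin n) : HasCompactSupport (vv ε χ W m) := by
  have h1 : HasCompactSupport (fun x => χ x * (χ x * FF ε (ss W x) * uu W m x)) := hc.mul_right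
  have e : vv ε χ W m = (fun x => χ x * (χ x * FF ε (ss W x) * uu W m x)) := by
    funext x; unfold vv; ring
  rw [e]; exact h1

theorem D_ss {W : Fin 2 → Rn n → ℝ} (hW : ∀ c, ContDiff ℝ ∞ (W c)) (j : Fin n) (x : Rn n) :
    D j (ss W) x = 2 * ∑ m, uu W m x * D j (uu W m) x := by
  have hu : ∀ m, DifferentiableAt ℝ (uu W m) x := fun m =>
    (uu_smooth hW m).differentiable (by simp) x
  unfold ss
  rw [D_sum (fun m => (hu m).fun_mul (hu m)), Finset.mul_sum]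
  refine Finset.sum_congr rfl fun m _ => ?_
  rw [D_mul (hu m) (hu m)]
  ring

theorem D_PP {Q : Fin n → Fin n → Rn n → ℝ} {W : Fin 2 → Rn n → ℝ}
    (hQ : ∀ i j, ContDiff ℝ ∞ (Q i j)) (hW : ∀ c, ContDiff ℝ ∞ (W c)) (c : Fin 2) (j k : Fin n)
    (x : Rn n) : D k (PP Q W c j) x =
      ∑ i, D k (Q i j) x * uu W (c, i) x + ∑ i, Q i j x * D i (uu W (c, k)) x := by
  have hu : ∀ i, DifferentiableAt ℝ (uu W (c, i)) x := fun i =>
    (uu_smooth hW (c, i)).differentiable (by simp) x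
  have hq : ∀ i, DifferentiableAt ℝ (Q i j) x := fun i => (hQ i j).differentiable (by simp) x
  unfold PP
  rw [D_sum (fun i => (hq i).fun_mul (hu i)), ← Finset.sum_add_distrib]
  refine Finset.sum_congr rfl fun i _ => ?_
  rw [D_mul (hq i) (hu i)]
  have e : D k (uu W (c, i)) x = D i (uu W (c, k)) x := D_comm (hW c) k i x
  rw [e]

theorem D_vv {ε : ℝ} (hε : 0 < ε) {χ : Rn n → ℝ} (hχ : ContDiff ℝ ∞ χ)
    {W : Fin 2 → Rn n → ℝ} (hW : ∀ c, ContDiff ℝ ∞ (W c)) (m : Fin 2 × Fin n) (j : Fin n)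
    (x : Rn n) : D j (vv ε χ W m) x =
      χ x ^ 2 * FF ε (ss W x) * D j (uu W m) x +
        (2 * χ x * D j χ x * FF ε (ss W x) + χ x ^ 2 * FD ε (ss W x) * D j (ss W) x) *
          uu W m x := by
  have dχ : DifferentiableAt ℝ χ x := hχ.differentiable (by simp) x
  have du : DifferentiableAt ℝ (uu W m) x := (uu_smooth hW m).differentiable (by simp) x
  have ds : DifferentiableAt ℝ (ss W) x := (ss_smooth hW).differentiable (by simp) x
  have dF : DifferentiableAt ℝ (fun y => FF ε (ss W y)) x :=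
    DifferentiableAt.comp x (g := FF ε) (f := ss W) ((FF_hasDerivAt hε _).differentiableAt) ds
  have e1 : D j (vv ε χ W m) x =
      D j (fun y => ((χ y * χ y) * FF ε (ss W y)) * uu W m y) x := rfl
  rw [e1, D_mul ((dχ.fun_mul dχ).fun_mul dF) du, D_mul (dχ.fun_mul dχ) dF, D_mul dχ dχ,
    D_comp hε ds]
  ring

theorem TL_int {ε : ℝ} (hε : 0 < ε) {χ : Rn n → ℝ} (hχ : ContDiff ℝ ∞ χ)
    (hc : HasCompactSupport χ) {Q : Fin n → Fin n → Rn n → ℝ} {W : Fin 2 → Rn n → ℝ}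
    (hQ : ∀ i j, ContDiff ℝ ∞ (Q i j)) (hW : ∀ c, ContDiff ℝ ∞ (W c)) :
    Integrable (TL ε χ Q W) (volume : Measure (Rn n)) ∧ ∫ x, TL ε χ Q W x = 0 := by
  have h : ∀ (m : Fin 2 × Fin n) (j : Fin n), _ := fun m j =>
    div_free (PP_smooth hQ hW m.1 j) (vv_contDiff hε hχ hW m) (vv_cs (ε := ε) (W := W) hc m) j m.2
  have h1 : ∀ m : Fin 2 × Fin n, Integrable (fun x => ∑ j,
      (D j (PP Q W m.1 j) x * D m.2 (vv ε χ W m) x -
        D m.2 (PP Q W m.1 j) x * D j (vv ε χ W m) x)) (volume : Measure (Rn n)) := fun m =>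
    integrable_finsetSum _ fun j _ => (h m j).1
  unfold TL
  refine ⟨integrable_finsetSum _ fun m _ => h1 m, ?_⟩
  rw [integral_finsetSum _ fun m _ => h1 m]
  refine Finset.sum_eq_zero fun m _ => ?_
  rw [integral_finsetSum _ fun j _ => (h m j).1]
  exact Finset.sum_eq_zero fun j _ => (h m j).2

theorem TL_eq {ε : ℝ} (hε : 0 < ε) {χ : Rn n → ℝ} (hχ : ContDiff ℝ ∞ χ)
    {Q : Fin n → Fin n → Rn n → ℝ} {W : Fin 2 → Rn n → ℝ}
    (hQ : ∀ i j, ContDiff ℝ ∞ (Q i j)) (hW : ∀ c, ContDiff ℝ ∞ (W c)) (x : Rn n) :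
    TL ε χ Q W x = ∑ m, ∑ j, (FL Q W x m j - ∑ i, Q i j x * D i (uu W m) x) *
      (χ x ^ 2 * FF ε (ss W x) * D j (uu W m) x +
        (2 * χ x * D j χ x * FF ε (ss W x) + χ x ^ 2 * FD ε (ss W x) * D j (ss W) x) *
          uu W m x) := by
  unfold TL
  refine Finset.sum_congr rfl fun m _ => ?_
  have h1 : ∑ j, D j (PP Q W m.1 j) x * D m.2 (vv ε χ W m) x =
      ∑ j, (if j = m.2 then ∑ l, D l (PP Q W m.1 l) x else 0) * D j (vv ε χ W m) x := by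
    rw [← Finset.sum_mul]
    simp
  rw [Finset.sum_sub_distrib, h1, ← Finset.sum_sub_distrib]
  refine Finset.sum_congr rfl fun j _ => ?_
  rw [← D_vv hε hχ hW m j x, D_PP hQ hW]
  unfold FL
  ring

end EnAux

end Pool.Agent.H256.RN
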