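import Pool.Agent.H256.RN.Stm

open MeasureTheory Set Filter Topology
open scoped ContDiff

noncomputable section

namespace Pool.Agent.H256.RN

theorem Test.mono {n : ℕ} {U V : Set (Rn n)} {φ : Rn n → ℂ} (h : Test U φ) (hUV : U ⊆ V) :
    Test V φ :=
  ⟨h.smooth, h.cpt, h.sub.trans hUV⟩

theorem Null.mono {n : ℕ} {T : (Rn n → ℂ) → ℂ} {U V : Set (Rn n)} (h : Null T V) (hUV : U ⊆ V) :
    Null T U :=
  fun φ hφ => h φ (hφ.mono hUV)

theorem main (n : ℕ) (hL : LocStm n) (hOrd : OrdStm n) (hR : RadStm n) (hRep : RepStm n)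
    (hJ : JetStm n) : MainStm n := by
  intro p hp O hO q b c hq hb hc hsym hpos f hf hz
  obtain ⟨G, h, cG, ch, hvan, hrep⟩ := hRep p hp O hO q b c hq hb hc hsym f hf
  have hcf : ContinuousOn f O := hf.continuousOn
  have cV : ∀ j, ContinuousOn (VV q G j) O := by
    intro j
    unfold VV
    apply continuousOn_finsetSum
    intro i _
    apply ContinuousOn.mul
    · exact Complex.continuous_ofReal.comp_continuousOn (hq i j).continuousOn
    · have h1 : ContDiffOn ℝ 0 (fderiv ℝ G) O := cG.fderiv_of_isOpen hO (by simp)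
      exact h1.continuousOn.clm_apply continuousOn_const
  set T := TT (VV q G) h with hT
  set U1 : Set (Rn n) := {x | x ∈ O ∧ ∃ w : List (Fin n), w.length < p ∧ dw w f x ≠ 0} with hU1
  have hcj : ∀ w : List (Fin n), w.length < p → ContinuousOn (dw w f) O := by
    intro w hw
    have : ContDiffOn ℝ (0 : ℕ) (dw w f) O := by
      apply hJ O hO
      apply hf.of_le
      norm_cast
      omega
    exact this.continuousOn
  have hU1o : IsOpen U1 := by
    rw [isOpen_iff_mem_nhds]
    rintro x ⟨hxO, w, hw, hx⟩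
    have h1 : ContinuousAt (dw w f) x := (hcj w hw).continuousAt (hO.mem_nhds hxO)
    filter_upwards [h1.eventually_ne hx, hO.mem_nhds hxO] with y hy hyO
    exact ⟨hyO, w, hw, hy⟩
  have hU1O : U1 ⊆ O := fun x hx => hx.1
  have hfo : IsOpen (O \ {x | f x = 0}) := by
    have : O \ {x | f x = 0} = O ∩ f ⁻¹' {0}ᶜ := by
      ext x; simp
    rw [this]
    exact hcf.isOpen_inter_preimage hO isOpen_compl_singleton
  have hnull0 : Null T (O \ {x | f x = 0}) := by
    intro φ hφ
    rw [← hrep φ (hφ.mono (fun x hx => hx.1))]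
    exact hz φ hφ
  have hnullU1 : Null T U1 := by
    apply hOrd (VV q G) h U1 hU1o (fun j => (cV j).mono hU1O) (ch.mono hU1O) (p - 1) f
      (hf.mono hU1O)
    · intro x hx hs
      by_contra hne
      exact hs _ hfo ⟨hx.1, hne⟩ hnull0
    · rintro x ⟨-, w, hw, hne⟩ -
      exact ⟨w, by omega, hne⟩
  suffices hmain : Null T O by
    intro φ hφ
    rw [hrep φ hφ]
    exact hmain φ hφ
  apply hR O hO q hq hsym hpos G h cG ch (O \ U1)
  · have : O \ (O \ U1) = U1 := by
      ext x
      constructor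
      · rintro ⟨h1, h2⟩
        by_contra h3
        exact h2 ⟨h1, h3⟩
      · intro h1
        exact ⟨hU1O h1, fun h2 => h2.2 h1⟩
    rw [this]; exact hU1o
  · rintro x ⟨hxB, hxO, hxU⟩
    apply hvan x hxO
    intro w hw
    by_contra hne
    exact hxU ⟨hxO, w, hw, hne⟩
  · have : O \ (O \ U1) = U1 := by
      ext x
      constructor
      · rintro ⟨h1, h2⟩
        by_contra h3
        exact h2 ⟨h1, h3⟩
      · intro h1
        exact ⟨hU1O h1, fun h2 => h2.2 h1⟩
    rw [this]; exact hnullU1

end Pool.Agent.H256.RN
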