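import Pool.Agent.H256.RN.Rep

/-!
# Mollification in `ℝⁿ`
-/

open MeasureTheory Set Filter Topology
open scoped ContDiff Convolution

noncomputable section

namespace Pool.Agent.H256.RN

variable {n : ℕ}

theorem mol_exists_rho (n : ℕ) : ∃ ρ : Rn n → ℂ, ContDiff ℝ ∞ ρ ∧
    tsupport ρ ⊆ Metric.closedBall 0 1 ∧ ∫ x, ρ x = 1 := by
  let φ : ContDiffBump (0 : Rn n) := ⟨1 / 2, 1, by norm_num, by norm_num⟩
  refine ⟨fun x => ((φ.normed volume x : ℝ) : ℂ), ?_, ?_, ?_⟩
  · exact Complex.ofRealCLM.contDiff.comp φ.contDiff_normed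
  · have h1 : tsupport (fun x => ((φ.normed volume x : ℝ) : ℂ)) ⊆ tsupport (φ.normed volume) := by
      apply closure_mono
      intro x hx
      simpa [Function.mem_support] using hx
    refine h1.trans ?_
    rw [φ.tsupport_normed_eq]
  · rw [integral_complex_ofReal, φ.integral_normed]
    simp

theorem mol_rho (n : ℕ) : ∃ R : ℝ, 0 ≤ R ∧ ∀ δ : ℝ, 0 < δ → ∃ ρ : Rn n → ℂ, ContDiff ℝ ∞ ρ ∧
    tsupport ρ ⊆ Metric.closedBall 0 δ ∧ (∫ x, ρ x = 1) ∧ (∀ x, ‖ρ x‖ ≤ R / δ ^ n) ∧
    ∀ j x, ‖pd j ρ x‖ ≤ R / δ ^ (n + 1) := by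
  obtain ⟨ρ, hs, ht, hi⟩ := mol_exists_rho n
  have hc : HasCompactSupport ρ :=
    HasCompactSupport.of_support_subset_isCompact (isCompact_closedBall 0 1)
      ((subset_tsupport ρ).trans ht)
  obtain ⟨R0, hR0⟩ := hs.continuous.bounded_above_of_compact_support hc
  obtain ⟨R1, hR1⟩ := (hs.continuous_fderiv (by simp)).bounded_above_of_compact_support
    (hc.fderiv (𝕜 := ℝ))
  have hR00 : 0 ≤ R0 := (norm_nonneg _).trans (hR0 0)
  have hR10 : 0 ≤ R1 := (norm_nonneg _).trans (hR1 0)
  refine ⟨max R0 R1, le_max_of_le_left hR00, ?_⟩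
  intro δ hδ
  refine ⟨fun x => (((δ ^ n)⁻¹ : ℝ) : ℂ) * ρ (δ⁻¹ • x), ?_, ?_, ?_, ?_, ?_⟩
  · exact contDiff_const.mul (hs.comp (contDiff_const_smul _))
  · apply closure_minimal _ Metric.isClosed_closedBall
    intro x hx
    rw [Function.mem_support] at hx
    have h1 : ρ (δ⁻¹ • x) ≠ 0 := right_ne_zero_of_mul hx
    have h2 := ht (subset_tsupport ρ h1)
    rw [mem_closedBall_zero_iff, norm_smul, norm_inv, Real.norm_of_nonneg hδ.le] at h2
    rw [mem_closedBall_zero_iff]
    rw [inv_mul_le_iff₀ hδ, mul_one] at h2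
    exact h2
  · rw [integral_const_mul, Measure.integral_comp_smul, hi]
    simp only [finrank_euclideanSpace, Fintype.card_fin]
    rw [Complex.real_smul, mul_one, ← Complex.ofReal_mul]
    norm_cast
    rw [abs_of_nonneg (by positivity), inv_pow, inv_inv]
    exact inv_mul_cancel₀ (by positivity)
  · intro x
    rw [norm_mul, Complex.norm_real, Real.norm_of_nonneg (by positivity), div_eq_inv_mul]
    exact mul_le_mul_of_nonneg_left ((hR0 _).trans (le_max_left _ _)) (by positivity)
  · intro j x
    have hd : DifferentiableAt ℝ ρ (δ⁻¹ • x) := hs.differentiable (by simp) _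
    have h1 : HasFDerivAt (fun x : Rn n => (((δ ^ n)⁻¹ : ℝ) : ℂ) * ρ (δ⁻¹ • x))
        ((((δ ^ n)⁻¹ : ℝ) : ℂ) • ((fderiv ℝ ρ (δ⁻¹ • x)).comp
          (δ⁻¹ • ContinuousLinearMap.id ℝ (Rn n)))) x := by
      have h2 : HasFDerivAt (fun x : Rn n => δ⁻¹ • x) (δ⁻¹ • ContinuousLinearMap.id ℝ (Rn n)) x :=
        (hasFDerivAt_id x).const_smul δ⁻¹
      exact (hd.hasFDerivAt.comp x h2).const_mul _
    have h3 : pd j (fun x : Rn n => (((δ ^ n)⁻¹ : ℝ) : ℂ) * ρ (δ⁻¹ • x)) x =
        (((δ ^ n)⁻¹ : ℝ) : ℂ) * (δ⁻¹ • (fderiv ℝ ρ (δ⁻¹ • x)) (EuclideanSpace.single j (1 : ℝ))) := by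
      simp only [pd, h1.fderiv]
      simp
    rw [h3, norm_mul, norm_smul, Complex.norm_real, Real.norm_of_nonneg (by positivity),
      Real.norm_of_nonneg (by positivity)]
    have h4 : ‖(fderiv ℝ ρ (δ⁻¹ • x)) (EuclideanSpace.single j (1 : ℝ))‖ ≤ max R0 R1 := by
      refine ((fderiv ℝ ρ (δ⁻¹ • x)).le_opNorm _).trans ?_
      rw [PiLp.norm_single, norm_one, mul_one]
      exact (hR1 _).trans (le_max_right _ _)
    calc (δ ^ n)⁻¹ * (δ⁻¹ * ‖(fderiv ℝ ρ (δ⁻¹ • x)) (EuclideanSpace.single j (1 : ℝ))‖)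
        ≤ (δ ^ n)⁻¹ * (δ⁻¹ * max R0 R1) := by gcongr
      _ = max R0 R1 / δ ^ (n + 1) := by rw [pow_succ]; field_simp

theorem mol_integrable {S : Set (Rn n)} (hS : IsCompact S) {F : Rn n → ℂ}
    (h0 : ∀ y, y ∉ S → F y = 0) (hc : ContinuousOn F S) : Integrable F := by
  have h1 : IntegrableOn F S := hc.integrableOn_compact hS
  rwa [integrableOn_iff_integrable_of_support_subset] at h1
  intro y hy
  by_contra h
  exact hy (h0 y h)

theorem mol_bound {x : Rn n} {δ b : ℝ} (hδ : 0 ≤ δ) {F : Rn n → ℂ}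
    (h0 : ∀ y, y ∉ Metric.closedBall x δ → F y = 0)
    (hb : ∀ y ∈ Metric.closedBall x δ, ‖F y‖ ≤ b) :
    ‖∫ y, F y‖ ≤ b * (δ ^ n * volume.real (Metric.closedBall (0 : Rn n) 1)) := by
  rw [← setIntegral_eq_integral_of_forall_compl_eq_zero h0]
  refine (norm_setIntegral_le_of_norm_le_const measure_closedBall_lt_top hb).trans ?_
  rw [Measure.addHaar_real_closedBall' volume x hδ]
  simp only [finrank_euclideanSpace, Fintype.card_fin]
  exact le_rfl

theorem pd_comm {φ : Rn n → ℂ} (h : ContDiff ℝ ∞ φ) (i j : Fin n) :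
    pd i (pd j φ) = pd j (pd i φ) := by
  funext x
  have hd : DifferentiableAt ℝ (fderiv ℝ φ) x :=
    (h.fderiv_right (m := ∞) le_rfl).differentiable (by simp) x
  have hs : IsSymmSndFDerivAt ℝ φ x :=
    ContDiffAt.isSymmSndFDerivAt (n := ∞) h.contDiffAt
      (by simp; exact WithTop.coe_le_coe.2 le_top)
  have key : ∀ v w : Rn n, fderiv ℝ (fun y => fderiv ℝ φ y v) x w
      = fderiv ℝ (fderiv ℝ φ) x w v := by
    intro v w
    rw [fderiv_clm_apply hd (differentiableAt_const v)]
    simp
  unfold pd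
  rw [key, key]
  exact hs _ _

theorem norm_pd_le (j : Fin n) (f : Rn n → ℂ) (x : Rn n) : ‖pd j f x‖ ≤ ‖fderiv ℝ f x‖ := by
  refine ((fderiv ℝ f x).le_opNorm _).trans ?_
  rw [PiLp.norm_single, norm_one, mul_one]

/-- properties of a smooth function with support in a small ball -/
structure Ker (δ : ℝ) (σ : Rn n → ℂ) : Prop where
  smooth : ContDiff ℝ ∞ σ
  sub : tsupport σ ⊆ Metric.closedBall 0 δ

namespace Ker
variable {δ : ℝ} {σ : Rn n → ℂ}

theorem cpt (h : Ker δ σ) : HasCompactSupport σ :=
  HasCompactSupport.of_support_subset_isCompact (isCompact_closedBall 0 δ)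
    ((subset_tsupport σ).trans h.sub)

theorem pd (h : Ker δ σ) (j : Fin n) : Ker δ (pd j σ) where
  smooth := (h.smooth.fderiv_right (m := ∞) le_rfl).clm_apply contDiff_const
  sub := (tsupport_fderiv_apply_subset ℝ _).trans h.sub

theorem off (h : Ker δ σ) (x y : Rn n) (hy : y ∉ Metric.closedBall x δ) : σ (x - y) = 0 := by
  apply image_eq_zero_of_notMem_tsupport
  intro h1
  have h2 := h.sub h1
  rw [mem_closedBall_zero_iff, ← dist_eq_norm, dist_comm] at h2
  exact hy h2

theorem test (h : Ker δ σ) (x : Rn n) {U : Set (Rn n)} (hU : Metric.closedBall x δ ⊆ U) :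
    Test U fun y => σ (x - y) := by
  have ht : tsupport (fun y => σ (x - y)) ⊆ Metric.closedBall x δ := by
    apply closure_minimal _ Metric.isClosed_closedBall
    intro y hy
    by_contra h1
    exact hy (h.off x y h1)
  exact ⟨h.smooth.comp (contDiff_const.sub contDiff_id),
    HasCompactSupport.of_support_subset_isCompact (isCompact_closedBall x δ)
      ((subset_tsupport _).trans ht), ht.trans hU⟩

theorem pd_flip (h : Ker δ σ) (x : Rn n) (j : Fin n) (y : Rn n) :
    RN.pd j (fun y => σ (x - y)) y = - RN.pd j σ (x - y) := by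
  have hd : DifferentiableAt ℝ σ (x - y) := h.smooth.differentiable (by simp) _
  have h1 : HasFDerivAt (fun y : Rn n => x - y) (-ContinuousLinearMap.id ℝ (Rn n)) y := by
    simpa using (hasFDerivAt_id y).const_sub x
  have h2 : HasFDerivAt (fun y => σ (x - y))
      ((fderiv ℝ σ (x - y)).comp (-ContinuousLinearMap.id ℝ (Rn n))) y :=
    hd.hasFDerivAt.comp y h1
  simp only [RN.pd, h2.fderiv]
  simp

theorem pd_conv (h : Ker δ σ) {Gt : Rn n → ℂ} (hG : LocallyIntegrable Gt) (j : Fin n) :
    RN.pd j (fun x => ∫ y, Gt y * σ (x - y)) = fun x => ∫ y, Gt y * RN.pd j σ (x - y) := by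
  funext x
  have h1 := h.cpt.hasFDerivAt_convolution_right (ContinuousLinearMap.mul ℝ ℂ) hG
    (h.smooth.of_le (by simp)) x
  have h2 : (fun x => ∫ y, Gt y * σ (x - y)) = Gt ⋆[ContinuousLinearMap.mul ℝ ℂ, volume] σ := rfl
  rw [h2]
  simp only [RN.pd]
  rw [h1.fderiv, convolution_precompR_apply (ContinuousLinearMap.mul ℝ ℂ) hG
    (h.cpt.fderiv (𝕜 := ℝ)) (h.smooth.continuous_fderiv (by simp))]
  rfl

theorem conv_smooth (h : Ker δ σ) {Gt : Rn n → ℂ} (hG : LocallyIntegrable Gt) :
    ContDiff ℝ ∞ (fun x => ∫ y, Gt y * σ (x - y)) :=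
  h.cpt.contDiff_convolution_right (ContinuousLinearMap.mul ℝ ℂ) hG h.smooth

/-- moving the derivative to `G` -/
theorem move (h : Ker δ σ) {B K' : Set (Rn n)} (hB : IsOpen B) {G : Rn n → ℂ}
    (hG : ContDiffOn ℝ 1 G B) (hK : K' ⊆ B) {x : Rn n} (hx : Metric.closedBall x δ ⊆ K')
    (i : Fin n) : ∫ y, K'.indicator G y * RN.pd i σ (x - y) = ∫ y, RN.pd i G y * σ (x - y) := by
  have h1 : (fun y => K'.indicator G y * RN.pd i σ (x - y))
      = fun y => -(G y * RN.pd i (fun y => σ (x - y)) y) := by
    funext y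
    rw [h.pd_flip]
    by_cases hy : y ∈ Metric.closedBall x δ
    · rw [indicator_of_mem (hx hy)]; ring
    · rw [(h.pd i).off x y hy]; ring
  rw [h1, integral_neg, ibp hB hG (h.test x (hx.trans hK)) i, neg_neg]

end Ker

theorem mol (n : ℕ) : MolStm n := by
  intro B hB q hq G h hG hh Z hBZ hZ hN K hK hKB
  have hq' : ∀ i j, ContDiffOn ℝ ∞ (fun y => (q i j y : ℂ)) B := fun i j =>
    Complex.ofRealCLM.contDiff.comp_contDiffOn (hq i j)
  obtain ⟨δ₀, hδ₀, hsub⟩ := hK.exists_cthickening_subset_open hB hKB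
  have hK' : IsCompact (Metric.cthickening δ₀ K) := hK.cthickening
  set K' := Metric.cthickening δ₀ K with hK'def
  have hGd : ContinuousOn (fderiv ℝ G) B := hG.continuousOn_fderiv_of_isOpen hB (by simp)
  have hpG : ∀ i, ContinuousOn (pd i G) B := fun i => hGd.clm_apply continuousOn_const
  obtain ⟨A, hA⟩ := hK'.exists_bound_of_continuousOn (hGd.mono hsub)
  obtain ⟨H, hH⟩ := hK'.exists_bound_of_continuousOn (hh.mono hsub)
  have hqd : ∀ i j, ContinuousOn (fderiv ℝ fun y => (q i j y : ℂ)) B := fun i j =>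
    (hq' i j).continuousOn_fderiv_of_isOpen hB (by simp)
  obtain ⟨D, hD⟩ : ∃ D : ℝ, ∀ i j, ∀ y ∈ K', ‖fderiv ℝ (fun y => (q i j y : ℂ)) y‖ ≤ D := by
    choose D hD using fun i j => hK'.exists_bound_of_continuousOn ((hqd i j).mono hsub)
    refine ⟨∑ i, ∑ j, |D i j|, fun i j y hy => (hD i j y hy).trans ?_⟩
    refine (le_abs_self _).trans ?_
    refine (Finset.single_le_sum (f := fun j => |D i j|) (fun j _ => abs_nonneg _)
      (Finset.mem_univ j)).trans ?_
    exact Finset.single_le_sum (f := fun i => ∑ j, |D i j|)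
      (fun i _ => Finset.sum_nonneg fun j _ => abs_nonneg _) (Finset.mem_univ i)
  obtain ⟨R, hR, hρ⟩ := mol_rho n
  set c := volume.real (Metric.closedBall (0 : Rn n) 1) with hc
  have hc0 : 0 ≤ c := measureReal_nonneg
  set A' := max A 0 with hA'
  set H' := max H 0 with hH'
  set D' := max D 0 with hD'
  have hA'0 : 0 ≤ A' := le_max_right _ _
  have hH'0 : 0 ≤ H' := le_max_right _ _
  have hD'0 : 0 ≤ D' := le_max_right _ _
  refine ⟨(n * (n * (D' * (A' * R * c)))) + (n * (n * (D' * A' * R)) + H' * R) * c, ?_⟩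
  intro ε hε
  set ε' := min (ε / (n + 1)) (ε / (c * R + 1)) with hε'
  have hcR : 0 < c * R + 1 := by positivity
  have hn1 : (0 : ℝ) < n + 1 := by positivity
  have hε'0 : 0 < ε' := lt_min (by positivity) (by positivity)
  have huc := hK'.uniformContinuousOn_of_continuous (hGd.mono hsub)
  rw [Metric.uniformContinuousOn_iff] at huc
  obtain ⟨δ₁, hδ₁, hunif⟩ := huc ε' hε'0
  set δ := min δ₀ (δ₁ / 2) with hδdef
  have hδ : 0 < δ := lt_min hδ₀ (by positivity)
  obtain ⟨ρ, hρs, hρt, hρi, hρb, hρd⟩ := hρ δ hδ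
  have hker : Ker δ ρ := ⟨hρs, hρt⟩
  have hball : ∀ x ∈ K, Metric.closedBall x δ ⊆ K' := by
    intro x hx
    exact (Metric.closedBall_subset_cthickening hx δ).trans
      (Metric.cthickening_mono (min_le_left _ _) K)
  have hKK' : K ⊆ K' := Metric.self_subset_cthickening K
  have hnear : ∀ x ∈ K, ∀ y ∈ Metric.closedBall x δ, ∀ k, ‖pd k G y - pd k G x‖ < ε' := by
    intro x hx y hy k
    have h1 : dist (fderiv ℝ G y) (fderiv ℝ G x) < ε' := by
      apply hunif y (hball x hx hy) x (hKK' hx)
      rw [Metric.mem_closedBall] at hy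
      have : δ ≤ δ₁ / 2 := min_le_right _ _
      linarith
    rw [dist_eq_norm] at h1
    refine lt_of_le_of_lt ?_ h1
    have h2 : pd k G y - pd k G x = (fderiv ℝ G y - fderiv ℝ G x) (EuclideanSpace.single k 1) := by
      simp [pd]
    rw [h2]
    refine ((fderiv ℝ G y - fderiv ℝ G x).le_opNorm _).trans ?_
    rw [PiLp.norm_single, norm_one, mul_one]
  set Gt : Rn n → ℂ := K'.indicator G with hGt
  have hGtloc : LocallyIntegrable Gt := by
    apply Integrable.locallyIntegrable
    rw [hGt, integrable_indicator_iff hK'.measurableSet]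
    exact (hG.continuousOn.mono hsub).integrableOn_compact hK'
  set g : Rn n → ℂ := fun x => ∫ y, Gt y * ρ (x - y) with hg
  have hgs : ContDiff ℝ ∞ g := hker.conv_smooth hGtloc
  have hgd : ∀ i, pd i g = fun x => ∫ y, Gt y * pd i ρ (x - y) := fun i =>
    hker.pd_conv hGtloc i
  have hg1 : ∀ i, ∀ x ∈ K, pd i g x = ∫ y, pd i G y * ρ (x - y) := by
    intro i x hx
    rw [hgd i]
    exact hker.move hB hG hsub (hball x hx) i
  have hg2 : ∀ i j, ∀ x ∈ K, pd j (pd i g) x = ∫ y, pd i G y * pd j ρ (x - y) := by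
    intro i j x hx
    rw [hgd i, (hker.pd i).pd_conv hGtloc j, pd_comm hρs j i]
    exact (hker.pd j).move hB hG hsub (hball x hx) i
  have hpcont : ∀ j, Continuous (pd j ρ) := fun j =>
    (hρs.continuous_fderiv (by simp)).clm_apply continuous_const
  refine ⟨g, hgs, ?_, ?_⟩
  · intro x hx k
    have hSB : Metric.closedBall x δ ⊆ B := (hball x hx).trans hsub
    have hi1 : Integrable (fun y => ρ (x - y)) := by
      apply mol_integrable (isCompact_closedBall x δ) (hker.off x)
      exact (hρs.continuous.comp (continuous_const.sub continuous_id)).continuousOn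
    have hi2 : Integrable (fun y => pd k G y * ρ (x - y)) := by
      apply mol_integrable (isCompact_closedBall x δ)
      · intro y hy
        rw [hker.off x y hy, mul_zero]
      · exact ((hpG k).mono hSB).mul
          (hρs.continuous.comp (continuous_const.sub continuous_id)).continuousOn
    have h1 : pd k g x - pd k G x = ∫ y, (pd k G y * ρ (x - y) - pd k G x * ρ (x - y)) := by
      rw [integral_sub hi2 (hi1.const_mul _), integral_const_mul, ← hg1 k x hx]
      congr 1
      rw [integral_sub_left_eq_self (fun y => ρ y) volume x, hρi, mul_one]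
    rw [h1]
    have hb := mol_bound (b := ε' * (R / δ ^ n)) (x := x) hδ.le
      (F := fun y => pd k G y * ρ (x - y) - pd k G x * ρ (x - y))
      (fun y hy => by simp only [hker.off x y hy, mul_zero, sub_zero])
      (fun y hy => by
        rw [← sub_mul, norm_mul]
        exact mul_le_mul (hnear x hx y hy k).le (hρb _) (norm_nonneg _) hε'0.le)
    refine hb.trans ?_
    have h2 : ε' * (R / δ ^ n) * (δ ^ n * volume.real (Metric.closedBall (0 : Rn n) 1))
        = ε' * (c * R) := by
      rw [← hc]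
      field_simp
    rw [h2]
    have h3 : ε' ≤ ε / (c * R + 1) := min_le_right _ _
    calc ε' * (c * R) ≤ ε / (c * R + 1) * (c * R + 1) := by
          apply mul_le_mul h3 (by linarith) (by positivity) (by positivity)
      _ = ε := by field_simp
  · intro x hx hGx
    set S := Metric.closedBall x δ with hS
    have hScpt : IsCompact S := isCompact_closedBall x δ
    have hSB : S ⊆ B := (hball x hx).trans hsub
    have hSZ : S ⊆ B \ Z := by
      intro y hy
      refine ⟨hSB hy, fun hyZ => ?_⟩
      have h1 := hZ y ⟨hSB hy, hyZ⟩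
      have h2 : ∀ k, ‖pd k G x‖ ^ 2 ≤ (ε / (n + 1)) ^ 2 := by
        intro k
        have h4 := hnear x hx y hy k
        rw [h1 k, zero_sub, norm_neg] at h4
        have h3 : ε' ≤ ε / (n + 1) := min_le_left _ _
        exact pow_le_pow_left₀ (norm_nonneg _) (h4.le.trans h3) 2
      have h5 : ∑ k, ‖pd k G x‖ ^ 2 ≤ n * (ε / (n + 1)) ^ 2 := by
        refine (Finset.sum_le_sum fun k _ => h2 k).trans ?_
        simp
      have h6 : (n : ℝ) * (ε / (n + 1)) ^ 2 < ε ^ 2 := by
        rw [div_pow, ← mul_div_assoc, div_lt_iff₀ (by positivity)]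
        have h7 : (0 : ℝ) ≤ n := Nat.cast_nonneg n
        have h8 : (n : ℝ) < (n + 1) ^ 2 := by nlinarith
        rw [mul_comm]
        exact mul_lt_mul_of_pos_left h8 (by positivity)
      linarith
    -- the test function
    have hφtest : Test (B \ Z) fun y => ρ (x - y) := hker.test x hSZ
    have hTT := hN _ hφtest
    unfold TT at hTT
    simp only [hker.pd_flip] at hTT
    have hxB : x ∈ B := hKB hx
    have hxK' : x ∈ K' := hKK' hx
    -- derivative of `VV q g j`
    have hVd : ∀ j, pd j (VV q g j) x = ∑ i, (pd j (fun y => (q i j y : ℂ)) x * pd i g x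
        + (q i j x : ℂ) * pd j (pd i g) x) := by
      intro j
      have hd1 : ∀ i, DifferentiableAt ℝ (fun y => (q i j y : ℂ)) x := fun i =>
        ((hq' i j).contDiffAt (hB.mem_nhds hxB)).differentiableAt (by simp)
      have hd2 : ∀ i, DifferentiableAt ℝ (pd i g) x := fun i =>
        ((hgs.fderiv_right (m := ∞) le_rfl).clm_apply contDiff_const).differentiable (by simp) x
      have h1 : HasFDerivAt (VV q g j)
          (∑ i, fderiv ℝ (fun y => (q i j y : ℂ) * pd i g y) x) x := by
        unfold VV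
        exact HasFDerivAt.fun_sum fun i _ => ((hd1 i).mul (hd2 i)).hasFDerivAt
      have h2 : pd j (VV q g j) x = ∑ i, pd j (fun y => (q i j y : ℂ) * pd i g y) x := by
        unfold pd
        rw [h1.fderiv, ContinuousLinearMap.sum_apply]
        rfl
      rw [h2]
      exact Finset.sum_congr rfl fun i _ => pd_mul j (hd1 i) (hd2 i)
    have hiρ : ∀ i j, Integrable (fun y => pd i G y * pd j ρ (x - y)) := by
      intro i j
      apply mol_integrable hScpt
      · intro y hy
        rw [(hker.pd j).off x y hy, mul_zero]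
      · exact ((hpG i).mono hSB).mul
          ((hpcont j).comp (continuous_const.sub continuous_id)).continuousOn
    have hTTi : Integrable (fun y => (∑ j, VV q G j y * -pd j ρ (x - y)) + h y * ρ (x - y)) := by
      apply mol_integrable hScpt
      · intro y hy
        rw [hker.off x y hy, mul_zero, add_zero]
        refine Finset.sum_eq_zero fun j _ => ?_
        rw [(hker.pd j).off x y hy, neg_zero, mul_zero]
      · refine ContinuousOn.add (continuousOn_finsetSum _ fun j _ => ?_) ?_
        · exact ((VV_continuousOn hB hq' hG j).mono hSB).mul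
            ((hpcont j).comp (continuous_const.sub continuous_id)).continuousOn.neg
        · exact (hh.mono hSB).mul
            (hρs.continuous.comp (continuous_const.sub continuous_id)).continuousOn
    have hkey : ∑ j, ∑ i, (q i j x : ℂ) * pd j (pd i g) x
        = ∫ y, ((∑ j, ∑ i, (q i j x : ℂ) * (pd i G y * pd j ρ (x - y))) +
          ((∑ j, VV q G j y * -pd j ρ (x - y)) + h y * ρ (x - y))) := by
      rw [integral_add (integrable_finsetSum _ fun j _ => integrable_finsetSum _ fun i _ =>
        (hiρ i j).const_mul _) hTTi, hTT, add_zero,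
        integral_finsetSum _ fun j _ => integrable_finsetSum _ fun i _ => (hiρ i j).const_mul _]
      refine Finset.sum_congr rfl fun j _ => ?_
      rw [integral_finsetSum _ fun i _ => (hiρ i j).const_mul _]
      refine Finset.sum_congr rfl fun i _ => ?_
      rw [integral_const_mul, hg2 i j x hx]
    have hlip : ∀ i j, ∀ y ∈ S, ‖(q i j x : ℂ) - (q i j y : ℂ)‖ ≤ D' * δ := by
      intro i j y hy
      have h1 : ∀ z ∈ S, DifferentiableAt ℝ (fun y => (q i j y : ℂ)) z := fun z hz =>
        ((hq' i j).contDiffAt (hB.mem_nhds (hSB hz))).differentiableAt (by simp)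
      have h2 : ∀ z ∈ S, ‖fderiv ℝ (fun y => (q i j y : ℂ)) z‖ ≤ D' := fun z hz =>
        (hD i j z (hball x hx hz)).trans (le_max_left _ _)
      have h3 := (convex_closedBall x δ).norm_image_sub_le_of_norm_fderiv_le h1 h2
        hy (Metric.mem_closedBall_self hδ.le)
      refine h3.trans ?_
      apply mul_le_mul_of_nonneg_left _ hD'0
      rw [← dist_eq_norm, dist_comm]
      exact Metric.mem_closedBall.mp hy
    have hGy : ∀ i, ∀ y ∈ S, ‖pd i G y‖ ≤ A' := fun i y hy =>
      (norm_pd_le i G y).trans ((hA y (hball x hx hy)).trans (le_max_left _ _))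
    -- first part
    have hpart1 : ‖∑ j, ∑ i, pd j (fun y => (q i j y : ℂ)) x * pd i g x‖
        ≤ n * (n * (D' * (A' * R * c))) := by
      have h1 : ∀ i, ‖pd i g x‖ ≤ A' * R * c := by
        intro i
        rw [hg1 i x hx]
        have hb := mol_bound (b := A' * (R / δ ^ n)) (x := x) hδ.le
          (F := fun y => pd i G y * ρ (x - y))
          (fun y hy => by simp only [hker.off x y hy, mul_zero])
          (fun y hy => by
            rw [norm_mul]
            exact mul_le_mul (hGy i y hy) (hρb _) (norm_nonneg _) hA'0)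
        refine hb.trans (le_of_eq ?_)
        rw [← hc]
        field_simp
      have h2 : ∀ i j, ‖pd j (fun y => (q i j y : ℂ)) x‖ ≤ D' := fun i j =>
        (norm_pd_le j _ x).trans ((hD i j x hxK').trans (le_max_left _ _))
      refine (norm_sum_le _ _).trans ?_
      have h3 : ∀ j ∈ (Finset.univ : Finset (Fin n)),
          ‖∑ i, pd j (fun y => (q i j y : ℂ)) x * pd i g x‖ ≤ n * (D' * (A' * R * c)) := by
        intro j _
        refine (norm_sum_le _ _).trans ?_
        have h4 : ∀ i ∈ (Finset.univ : Finset (Fin n)),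
            ‖pd j (fun y => (q i j y : ℂ)) x * pd i g x‖ ≤ D' * (A' * R * c) := by
          intro i _
          rw [norm_mul]
          exact mul_le_mul (h2 i j) (h1 i) (norm_nonneg _) hD'0
        refine (Finset.sum_le_sum h4).trans ?_
        simp
      refine (Finset.sum_le_sum h3).trans ?_
      simp
    -- second part
    have hpart2 : ‖∑ j, ∑ i, (q i j x : ℂ) * pd j (pd i g) x‖
        ≤ (n * (n * (D' * A' * R)) + H' * R) * c := by
      rw [hkey]
      have heq : ∀ y, (∑ j, ∑ i, (q i j x : ℂ) * (pd i G y * pd j ρ (x - y))) +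
          ((∑ j, VV q G j y * -pd j ρ (x - y)) + h y * ρ (x - y))
          = (∑ j, ∑ i, ((q i j x : ℂ) - (q i j y : ℂ)) * (pd i G y * pd j ρ (x - y)))
            + h y * ρ (x - y) := by
        intro y
        rw [← add_assoc, ← Finset.sum_add_distrib]
        congr 1
        refine Finset.sum_congr rfl fun j _ => ?_
        unfold VV
        rw [Finset.sum_mul, ← Finset.sum_add_distrib]
        refine Finset.sum_congr rfl fun i _ => ?_
        ring
      simp only [heq]
      have hb := mol_bound (b := (n * (n * (D' * A' * R)) + H' * R) / δ ^ n) (x := x) hδ.le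
        (F := fun y => (∑ j, ∑ i, ((q i j x : ℂ) - (q i j y : ℂ)) * (pd i G y * pd j ρ (x - y)))
            + h y * ρ (x - y))
        (fun y hy => by
          simp only [hker.off x y hy, (hker.pd _).off x y hy, mul_zero, Finset.sum_const_zero,
            add_zero])
        (fun y hy => by
          have hHy : ‖h y‖ ≤ H' := (hH y (hball x hx hy)).trans (le_max_left _ _)
          have e3 : ‖h y * ρ (x - y)‖ ≤ H' * (R / δ ^ n) := by
            rw [norm_mul]
            exact mul_le_mul hHy (hρb _) (norm_nonneg _) hH'0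
          have e1 : ‖∑ j, ∑ i, ((q i j x : ℂ) - (q i j y : ℂ)) * (pd i G y * pd j ρ (x - y))‖
              ≤ n * (n * (D' * δ * (A' * (R / δ ^ (n + 1))))) := by
            refine (norm_sum_le _ _).trans ?_
            have h3 : ∀ j ∈ (Finset.univ : Finset (Fin n)),
                ‖∑ i, ((q i j x : ℂ) - (q i j y : ℂ)) * (pd i G y * pd j ρ (x - y))‖
                  ≤ n * (D' * δ * (A' * (R / δ ^ (n + 1)))) := by
              intro j _
              refine (norm_sum_le _ _).trans ?_
              have h4 : ∀ i ∈ (Finset.univ : Finset (Fin n)),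
                  ‖((q i j x : ℂ) - (q i j y : ℂ)) * (pd i G y * pd j ρ (x - y))‖
                    ≤ D' * δ * (A' * (R / δ ^ (n + 1))) := by
                intro i _
                rw [norm_mul, norm_mul]
                exact mul_le_mul (hlip i j y hy) (mul_le_mul (hGy i y hy) (hρd j _)
                  (norm_nonneg _) hA'0) (by positivity) (by positivity)
              refine (Finset.sum_le_sum h4).trans ?_
              simp
            refine (Finset.sum_le_sum h3).trans ?_
            simp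
          have e4 : n * (n * (D' * δ * (A' * (R / δ ^ (n + 1))))) + H' * (R / δ ^ n)
              = (n * (n * (D' * A' * R)) + H' * R) / δ ^ n := by
            rw [pow_succ]
            field_simp
          rw [← e4]
          exact (norm_add_le _ _).trans (add_le_add e1 e3))
      refine hb.trans (le_of_eq ?_)
      rw [← hc]
      field_simp
    have hsplit : ∑ j, pd j (VV q g j) x
        = (∑ j, ∑ i, pd j (fun y => (q i j y : ℂ)) x * pd i g x)
          + ∑ j, ∑ i, (q i j x : ℂ) * pd j (pd i g) x := by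
      rw [← Finset.sum_add_distrib]
      refine Finset.sum_congr rfl fun j _ => ?_
      rw [hVd j, Finset.sum_add_distrib]
    rw [hsplit]
    exact (norm_add_le _ _).trans (add_le_add hpart1 hpart2)

end Pool.Agent.H256.RN
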