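import Pool.Agent.H256.RN.Stm

/-!
# The finite order argument in `ℝⁿ` (after helper96's plane version)
-/

open MeasureTheory Set Filter Topology
open scoped ContDiff

noncomputable section

namespace Pool.Agent.H256.RN

namespace OrdAux

variable {n : ℕ}

theorem contDiffOn_pd {U : Set (Rn n)} (hU : IsOpen U) {r m : WithTop ℕ∞} {f : Rn n → ℂ}
    (l : Fin n) (hf : ContDiffOn ℝ m f U) (hnm : r + 1 ≤ m) : ContDiffOn ℝ r (pd l f) U :=
  (hf.fderiv_of_isOpen hU hnm).clm_apply contDiffOn_const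

theorem contDiffOn_dw {U : Set (Rn n)} (hU : IsOpen U) (w : List (Fin n)) :
    ∀ {r : ℕ} {f : Rn n → ℂ}, ContDiffOn ℝ (r + w.length : ℕ) f U → ContDiffOn ℝ r (dw w f) U := by
  induction w with
  | nil => intro r f hf; simpa [dw] using hf
  | cons j w ih =>
    intro r f hf
    have h1 : ContDiffOn ℝ (r + 1 : ℕ) (dw w f) U := by
      apply ih
      rw [List.length_cons] at hf
      have : r + 1 + w.length = r + (w.length + 1) := by omega
      rw [this]
      exact hf
    exact contDiffOn_pd hU j h1 (by norm_cast)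

theorem null_mono {T : (Rn n → ℂ) → ℂ} {U V : Set (Rn n)} (h : V ⊆ U) (hU : Null T U) :
    Null T V :=
  fun φ hφ => hU φ ⟨hφ.smooth, hφ.cpt, hφ.sub.trans h⟩

/-- localization: if no point of the open set `U` is in the support then `T = 0` on `U` -/
theorem null_of_not_sp (hL : LocStm n) {V : Fin n → Rn n → ℂ} {h : Rn n → ℂ} {U : Set (Rn n)}
    (hU : IsOpen U) (h0 : ∀ j, ContinuousOn (V j) U) (h2 : ContinuousOn h U)
    (hS : ∀ x ∈ U, ¬ Sp (TT V h) x) : Null (TT V h) U := by
  apply hL V h U hU h0 h2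
  intro x hx
  have h3 := hS x hx
  unfold Sp at h3
  push Not at h3
  obtain ⟨W, hW, hxW, hN⟩ := h3
  exact ⟨W, hW, hxW, null_mono inter_subset_left hN⟩

/-- the contradiction at a point at which some derivative of `u` does not vanish -/
theorem ord_step (hL : LocStm n) (hH : HypStm n) {V : Fin n → Rn n → ℂ} {h : Rn n → ℂ}
    {U : Set (Rn n)} (hU : IsOpen U) (h0 : ∀ j, ContinuousOn (V j) U) (h2 : ContinuousOn h U)
    {u : Rn n → ℂ} (hu : ContDiffOn ℝ 1 u U) (huS : ∀ x ∈ U, Sp (TT V h) x → u x = 0) {x0 : Rn n}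
    (hx0 : x0 ∈ U) (hS : Sp (TT V h) x0) (l : Fin n) (hl : pd l u x0 ≠ 0) : False := by
  have hdiff : DifferentiableAt ℝ u x0 :=
    (hu.contDiffAt (hU.mem_nhds hx0)).differentiableAt (by simp)
  -- a real valued function
  have key : ∀ g : Rn n → ℝ, ContDiffOn ℝ 1 g U → (∀ x, u x = 0 → g x = 0) →
      fderiv ℝ g x0 ≠ 0 → False := by
    intro g hg hgu hgx
    have hopen : IsOpen (U ∩ {x | g x ≠ 0}) := by
      have := hg.continuousOn.isOpen_inter_preimage hU (isOpen_compl_singleton (x := (0 : ℝ)))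
      exact this
    have hN : Null (TT V h) (U ∩ {x | g x ≠ 0}) := by
      apply null_of_not_sp hL hopen (fun j => (h0 j).mono inter_subset_left)
        (h2.mono inter_subset_left)
      rintro x ⟨hxU, hxg⟩ hxS
      exact hxg (hgu x (huS x hxU hxS))
    obtain ⟨W, hW, hxW, _, hWN⟩ := hH V h U hU h0 h2 g hg x0 hx0 hgx hN
    exact hS W hW hxW hWN
  by_cases hre : (pd l u x0).re = 0
  · have him : (pd l u x0).im ≠ 0 := by
      intro h
      exact hl (Complex.ext hre h)
    refine key (fun x => (u x).im) ?_ (fun x hx => by simp [hx]) ?_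
    · exact Complex.imCLM.contDiff.comp_contDiffOn hu
    · intro h3
      apply him
      have h4 : fderiv ℝ (fun x => (u x).im) x0 = Complex.imCLM.comp (fderiv ℝ u x0) :=
        (Complex.imCLM.hasFDerivAt.comp x0 hdiff.hasFDerivAt).fderiv
      have h5 := congrArg (fun L : Rn n →L[ℝ] ℝ => L (EuclideanSpace.single l (1 : ℝ)))
        (h4.symm.trans h3)
      simpa [pd] using h5
  · refine key (fun x => (u x).re) ?_ (fun x hx => by simp [hx]) ?_
    · exact Complex.reCLM.contDiff.comp_contDiffOn hu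
    · intro h3
      apply hre
      have h4 : fderiv ℝ (fun x => (u x).re) x0 = Complex.reCLM.comp (fderiv ℝ u x0) :=
        (Complex.reCLM.hasFDerivAt.comp x0 hdiff.hasFDerivAt).fderiv
      have h5 := congrArg (fun L : Rn n →L[ℝ] ℝ => L (EuclideanSpace.single l (1 : ℝ)))
        (h4.symm.trans h3)
      simpa [pd] using h5

end OrdAux

open OrdAux in
theorem ord (n : ℕ) (hL : LocStm n) (hH : HypStm n) : OrdStm n := by
  classical
  intro V h U hU h0 h2 m d hd hd0 hdo
  apply null_of_not_sp hL hU h0 h2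
  intro y hyU hyS
  have hex : ∃ k : ℕ, ∃ x ∈ U, Sp (TT V h) x ∧ ∃ w : List (Fin n), w.length = k ∧
      w.length ≤ m ∧ dw w d x ≠ 0 := by
    obtain ⟨w, hw, hne⟩ := hdo y hyU hyS
    exact ⟨w.length, y, hyU, hyS, w, rfl, hw, hne⟩
  obtain ⟨x0, hx0U, hx0S, w, hwk, hwm, hne⟩ := Nat.find_spec hex
  have hmin : ∀ v : List (Fin n), v.length < Nat.find hex → ∀ x ∈ U, Sp (TT V h) x →
      dw v d x = 0 := by
    intro v hlt x hx hxS
    by_contra hc
    exact Nat.find_min hex hlt ⟨x, hx, hxS, v, rfl, by omega, hc⟩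
  rcases w with _ | ⟨j, w⟩
  · exact hne (hd0 x0 hx0U hx0S)
  · have hu : ContDiffOn ℝ 1 (dw w d) U := by
      have := contDiffOn_dw hU w (r := 1) (f := d) (hd.of_le (by
        rw [List.length_cons] at hwm
        norm_cast
        omega))
      exact_mod_cast this
    exact ord_step hL hH hU h0 h2 hu (hmin w (by rw [← hwk]; simp)) hx0U hx0S j hne

end Pool.Agent.H256.RN
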