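import Pool.Agent.H256.RN.Rad1

/-!
# Radó's theorem for `div (q ∇ G) = h` with bounded right hand side
-/

open MeasureTheory Set Filter Topology
open scoped ContDiff

noncomputable section

namespace Pool.Agent.H256.RN

namespace Rad

variable {n : ℕ}

/-- the integrand of `TT` -/
def FF (V : Fin n → Rn n → ℂ) (h φ : Rn n → ℂ) : Rn n → ℂ :=
  fun x => (∑ j, V j x * pd j φ x) + h x * φ x

theorem TT_eq (V : Fin n → Rn n → ℂ) (h φ : Rn n → ℂ) : TT V h φ = ∫ x, FF V h φ x := rfl

theorem pd_mul {u v : Rn n → ℂ} {x : Rn n} (l : Fin n) (hu : DifferentiableAt ℝ u x)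
    (hv : DifferentiableAt ℝ v x) :
    pd l (fun y => u y * v y) x = pd l u x * v x + u x * pd l v x := by
  unfold pd
  have := (hu.hasFDerivAt.mul hv.hasFDerivAt).fderiv
  have h2 : fderiv ℝ (fun y => u y * v y) x = u x • fderiv ℝ v x + v x • fderiv ℝ u x := this
  rw [h2]
  simp
  ring

theorem pd_zero_of_ev {u : Rn n → ℂ} {x : Rn n} (l : Fin n) (h : u =ᶠ[𝓝 x] fun _ => 0) :
    pd l u x = 0 := by
  unfold pd
  rw [h.fderiv_eq]
  simp

theorem ev_zero {φ : Rn n → ℂ} {x : Rn n} (hx : x ∉ tsupport φ) : φ =ᶠ[𝓝 x] fun _ => 0 :=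
  notMem_tsupport_iff_eventuallyEq.1 hx

variable {B : Set (Rn n)} {V : Fin n → Rn n → ℂ} {h : Rn n → ℂ}

theorem FF_off {φ : Rn n → ℂ} {x : Rn n} (hx : x ∉ tsupport φ) : FF V h φ x = 0 := by
  have h0 := ev_zero hx
  unfold FF
  rw [h0.eq_of_nhds, Finset.sum_eq_zero]
  · simp
  · intro j _
    rw [pd_zero_of_ev j h0, mul_zero]

theorem FF_mul {φ θ : Rn n → ℂ} (hφ : ContDiff ℝ ∞ φ) (hθ : ContDiff ℝ ∞ θ) (x : Rn n) :
    FF V h (fun y => φ y * θ y) x = θ x * FF V h φ x + φ x * ∑ j, V j x * pd j θ x := by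
  have dφ : DifferentiableAt ℝ φ x := (hφ.differentiable (by simp)).differentiableAt
  have dθ : DifferentiableAt ℝ θ x := (hθ.differentiable (by simp)).differentiableAt
  unfold FF
  have e : ∀ j, V j x * pd j (fun y => φ y * θ y) x =
      θ x * (V j x * pd j φ x) + φ x * (V j x * pd j θ x) := by
    intro j
    rw [pd_mul j dφ dθ]
    ring
  rw [Finset.sum_congr rfl fun j _ => e j, Finset.sum_add_distrib, ← Finset.mul_sum,
    ← Finset.mul_sum]
  ring

theorem FF_continuous (hB : IsOpen B) (hV : ∀ j, ContinuousOn (V j) B)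
    (hh : ContinuousOn h B) {φ : Rn n → ℂ} (hφ : Test B φ) : Continuous (FF V h φ) := by
  rw [continuous_iff_continuousAt]
  intro x
  by_cases hx : x ∈ tsupport φ
  · have hxB : x ∈ B := hφ.sub hx
    have hn := hB.mem_nhds hxB
    have c1 : ∀ j, Continuous (pd j φ) := fun j => by
      unfold pd
      exact (hφ.smooth.continuous_fderiv (by simp)).clm_apply continuous_const
    unfold FF
    exact (tendsto_finsetSum _ fun j _ =>
      ((hV j).continuousAt hn).mul (c1 j).continuousAt).add
      ((hh.continuousAt hn).mul hφ.smooth.continuous.continuousAt)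
  · have : FF V h φ =ᶠ[𝓝 x] fun _ => 0 := by
      have ho : IsOpen (tsupport φ)ᶜ := (isClosed_tsupport φ).isOpen_compl
      filter_upwards [ho.mem_nhds hx] with y hy
      exact FF_off hy
    exact this.continuousAt

theorem FF_compact {φ : Rn n → ℂ} (hφ : Test B φ) : HasCompactSupport (FF V h φ) :=
  HasCompactSupport.intro hφ.cpt (fun _ hx => FF_off hx)

theorem FF_integrable (hB : IsOpen B) (hV : ∀ j, ContinuousOn (V j) B)
    (hh : ContinuousOn h B) {φ : Rn n → ℂ} (hφ : Test B φ) : Integrable (FF V h φ) :=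
  (FF_continuous hB hV hh hφ).integrable_of_hasCompactSupport (FF_compact hφ)

theorem Test_mul {B : Set (Rn n)} {φ θ : Rn n → ℂ} (hφ : Test B φ) (hθ : ContDiff ℝ ∞ θ) :
    Test B (fun y => φ y * θ y) :=
  ⟨hφ.smooth.mul hθ, hφ.cpt.mul_right, (tsupport_mul_subset_left).trans hφ.sub⟩

theorem VV_continuousOn (hB : IsOpen B) {q : Fin n → Fin n → Rn n → ℝ}
    (hq : ∀ i j, ContDiffOn ℝ ∞ (q i j) B) {G : Rn n → ℂ} (hG : ContDiffOn ℝ 1 G B) (j : Fin n) :
    ContinuousOn (VV q G j) B := by
  unfold VV
  apply continuousOn_finsetSum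
  intro i _
  apply ContinuousOn.mul
  · exact Complex.continuous_ofReal.comp_continuousOn (hq i j).continuousOn
  · have h1 : ContDiffOn ℝ 0 (fderiv ℝ G) B := hG.fderiv_of_isOpen hB (by simp)
    exact h1.continuousOn.clm_apply continuousOn_const

theorem pd_continuousOn (hB : IsOpen B) {G : Rn n → ℂ} (hG : ContDiffOn ℝ 1 G B) (k : Fin n) :
    ContinuousOn (pd k G) B := by
  have h1 : ContDiffOn ℝ 0 (fderiv ℝ G) B := hG.fderiv_of_isOpen hB (by simp)
  exact h1.continuousOn.clm_apply continuousOn_const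

/-- from closeness of the derivatives to `SS` -/
theorem SS_le {g : Rn n → ℂ} {x : Rn n} {r : ℝ} (hr : 0 ≤ r) (h : ∀ k, ‖pd k g x‖ ≤ r) :
    SS g x ≤ n * r ^ 2 := by
  unfold SS
  calc ∑ k, ‖pd k g x‖ ^ 2 ≤ ∑ _k : Fin n, r ^ 2 :=
        Finset.sum_le_sum fun k _ => pow_le_pow_left₀ (norm_nonneg _) (h k) 2
    _ = n * r ^ 2 := by simp

/-- the first step: `T φ = ∫_{∇G = 0} h φ`. -/
theorem step1 (hE : EnStm n) (hM : MolStm n) (hB : IsOpen B) {q : Fin n → Fin n → Rn n → ℝ}
    (hq : ∀ i j, ContDiffOn ℝ ∞ (q i j) B) (hsym : ∀ i j x, q i j x = q j i x)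
    (hpos : ∀ x ∈ B, ∀ ξ : Rn n, ξ ≠ 0 → 0 < ∑ i, ∑ j, q i j x * ξ i * ξ j)
    {G : Rn n → ℂ} (hG : ContDiffOn ℝ 1 G B)
    (hh : ContinuousOn h B) {Z : Set (Rn n)} (hZo : IsOpen (B \ Z))
    (hZ : ∀ x ∈ B ∩ Z, ∀ k, pd k G x = 0)
    (hnull : Null (TT (VV q G) h) (B \ Z)) {φ : Rn n → ℂ} (hφ : Test B φ) :
    TT (VV q G) h φ = ∫ x, (open scoped Classical in if ∀ k, pd k G x = 0 then h x * φ x else 0) := by
  classical
  set K := tsupport φ with hK
  have hKc : IsCompact K := hφ.cpt
  have hKB : K ⊆ B := hφ.sub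
  obtain ⟨χ, hχ, hχc, hχB, hχ1, hχr⟩ := exists_cutoff hKc hB hKB
  set K' := tsupport χ with hK'
  have hK'c : IsCompact K' := hχc
  have hKK' : K ⊆ K' := by
    intro x hx
    apply subset_tsupport
    rw [Function.mem_support, hχ1 x hx]
    exact one_ne_zero
  -- bounds
  have hA1 : ∃ A1 : ℝ, 0 ≤ A1 ∧ ∀ x ∈ K', ∀ k, ‖pd k G x‖ ≤ A1 := by
    have : ∀ k, ∃ a : ℝ, ∀ x ∈ K', ‖pd k G x‖ ≤ a := fun k =>
      hK'c.exists_bound_of_continuousOn ((pd_continuousOn hB hG k).mono hχB)
    choose a ha using this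
    refine ⟨∑ k, |a k|, Finset.sum_nonneg fun _ _ => abs_nonneg _, fun x hx k => ?_⟩
    exact (ha k x hx).trans ((le_abs_self _).trans
      (Finset.single_le_sum (f := fun k => |a k|) (fun _ _ => abs_nonneg _) (Finset.mem_univ k)))
  obtain ⟨A1, hA10, hA1⟩ := hA1
  have hA2 : ∃ A2 : ℝ, 0 ≤ A2 ∧ ∀ x ∈ K', ∀ i j, |q i j x| ≤ A2 := by
    have : ∀ i j, ∃ a : ℝ, ∀ x ∈ K', ‖q i j x‖ ≤ a := fun i j =>
      hK'c.exists_bound_of_continuousOn ((hq i j).continuousOn.mono hχB)
    choose a ha using this
    refine ⟨∑ i, ∑ j, |a i j|, Finset.sum_nonneg fun _ _ => Finset.sum_nonneg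
      fun _ _ => abs_nonneg _, fun x hx i j => ?_⟩
    refine (ha i j x hx).trans ((le_abs_self _).trans ?_)
    refine (Finset.single_le_sum (f := fun j => |a i j|) (fun _ _ => abs_nonneg _)
      (Finset.mem_univ j)).trans ?_
    exact Finset.single_le_sum (f := fun i => ∑ j, |a i j|) (fun _ _ => Finset.sum_nonneg
      fun _ _ => abs_nonneg _) (Finset.mem_univ i)
  obtain ⟨A2, hA20, hA2⟩ := hA2
  set A : ℝ := (n + 1) * (A1 + 1) with hA
  have hA0 : 0 ≤ A := by positivity
  obtain ⟨M0, hM0⟩ := hM B hB q hq G h hG hh Z hZo hZ hnull K' hK'c hχB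
  obtain ⟨C, hC⟩ := hE χ hχ hχc B hB hχB q hq hsym hpos A (max M0 0) hA0 (le_max_right _ _)
  set e' : ℕ → ℝ := fun m => (1 / 2) ^ (2 * m + 3) / (n + 1) with he'
  have he'0 : ∀ m, 0 < e' m := fun m => by positivity
  have hn1 : (1 : ℝ) ≤ n + 1 := by
    have : (0 : ℝ) ≤ n := Nat.cast_nonneg n
    linarith
  have he'1 : ∀ m, e' m ≤ (1 / 2) ^ (2 * m + 3) := fun m => div_le_self (by positivity) hn1
  have hne' : ∀ m, (n : ℝ) * (e' m) ^ 2 ≤ ((1 / 2) ^ (2 * m + 3)) ^ 2 := by
    intro m
    simp only [he']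
    rw [div_pow, mul_div_assoc', div_le_iff₀ (by positivity)]
    have h0 : (0 : ℝ) ≤ n := Nat.cast_nonneg n
    have h1 : (n : ℝ) ≤ (n + 1) ^ 2 := by nlinarith
    have h2 : (0 : ℝ) ≤ ((1 / 2 : ℝ) ^ (2 * m + 3)) ^ 2 := by positivity
    nlinarith
  choose g hg1 hg2 hg3 using fun m : ℕ => hM0 (e' m) (he'0 m)
  have hle1 : ∀ m : ℕ, ((1 : ℝ) / 2) ^ (2 * m + 3) ≤ 1 := fun m =>
    pow_le_one₀ (by norm_num) (by norm_num)
  set Sn : ℕ → Set (Rn n) := fun m => {x | (2 * ((1 : ℝ) / 2) ^ (2 * m + 1)) ^ 2 ≤ SS (g m) x}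
    with hSn
  set En : ℕ → Rn n → ℝ := fun m x => χ x ^ 2 * (∑ k, ∑ j, ‖pd j (pd k (g m)) x‖ ^ 2) with hEn
  have hEnC : ∀ m, ∫ x in Sn m, En m x ≤ C := by
    intro m
    apply hC (g m) ((1 / 2) ^ (2 * m + 1)) (hg1 m) (by positivity)
    · intro x hx
      have h1 : ∀ k, ‖pd k (g m) x‖ ≤ A1 + 1 := by
        intro k
        have h2 := hg2 m x hx k
        have h3 : ‖pd k (g m) x‖ ≤ ‖pd k (g m) x - pd k G x‖ + ‖pd k G x‖ := by
          simpa using norm_add_le (pd k (g m) x - pd k G x) (pd k G x)
        have := hA1 x hx k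
        linarith [hle1 m, he'1 m]
      refine (SS_le (by positivity) h1).trans ?_
      rw [hA, mul_pow]
      have h0 : (0 : ℝ) ≤ n := Nat.cast_nonneg n
      gcongr
      nlinarith
    · intro x hx hge
      apply (hg3 m x hx _).trans (le_max_left _ _)
      by_contra hlt
      rw [not_le] at hlt
      have h1 : ∀ k, ‖pd k G x‖ ≤ e' m := pd_le_of_SS (he'0 m).le hlt.le
      have h2 : ∀ k, ‖pd k (g m) x‖ ≤ 2 * e' m := by
        intro k
        have h3 : ‖pd k (g m) x‖ ≤ ‖pd k (g m) x - pd k G x‖ + ‖pd k G x‖ := by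
          simpa using norm_add_le (pd k (g m) x - pd k G x) (pd k G x)
        linarith [h1 k, hg2 m x hx k]
      have h3 := SS_le (mul_nonneg zero_le_two (he'0 m).le) h2
      have h4 : ((1 : ℝ) / 2) ^ (2 * m + 1) = 4 * (1 / 2) ^ (2 * m + 3) := by
        rw [pow_add, pow_add]; ring
      have h5 : ((1 / 2 : ℝ) ^ (2 * m + 1)) ^ 2 ≤ SS (g m) x := hge
      rw [h4] at h5
      have h6 := hne' m
      have h7 : (0 : ℝ) < ((1 / 2 : ℝ) ^ (2 * m + 3)) ^ 2 := by positivity
      nlinarith
  have hEn0 : ∀ m x, 0 ≤ En m x := fun m x =>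
    mul_nonneg (by positivity) (Finset.sum_nonneg fun _ _ => Finset.sum_nonneg
      fun _ _ => by positivity)
  have hcpd : ∀ m k l, Continuous (pd l (pd k (g m))) := fun m k l =>
    (pd_contDiff (pd_contDiff (hg1 m) k) l).continuous
  have hEnI : ∀ m, Integrable (En m) := by
    intro m
    apply Continuous.integrable_of_hasCompactSupport
    · exact (hχ.continuous.pow 2).mul (continuous_finsetSum _ fun k _ =>
        continuous_finsetSum _ fun j _ => (hcpd m k j).norm.pow 2)
    · refine HasCompactSupport.intro hK'c (fun x hx => ?_)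
      have : χ x = 0 := by
        by_contra hne
        exact hx (subset_tsupport _ hne)
      simp [hEn, this]
  have hSnm : ∀ m, MeasurableSet (Sn m) := fun m =>
    (isClosed_le continuous_const (SS_contDiff (hg1 m)).continuous).measurableSet
  obtain ⟨D, hD0, hD⟩ := st_deriv_bound
  obtain ⟨Φ, hΦ⟩ := hφ.cpt.exists_bound_of_continuous hφ.smooth.continuous
  have hΦ0 : 0 ≤ Φ := (norm_nonneg _).trans (hΦ 0)
  -- annuli
  set δ : ℕ → ℝ := fun j => (1 / 2) ^ j with hδ
  have hδ0 : ∀ j, 0 < δ j := fun j => by positivity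
  have hδle : ∀ {i j : ℕ}, i < j → 2 * δ j ≤ δ i := by
    intro i j hij
    have h1 : δ j ≤ δ (i + 1) := pow_le_pow_of_le_one (by norm_num) (by norm_num) hij
    have h2 : δ (i + 1) = δ i / 2 := by simp only [hδ]; rw [pow_succ]; ring
    linarith
  set F : Rn n → ℂ := FF (VV q G) h φ with hF
  have hcV : ∀ j, ContinuousOn (VV q G j) B := fun j => VV_continuousOn hB hq hG j
  have hFI : Integrable F := FF_integrable hB hcV hh hφ
  have hF0 : ∀ x, x ∉ K → F x = 0 := fun x hx => FF_off hx
  set θ : ℕ → ℕ → Rn n → ℂ := fun m j => th (g m) (δ j) with hθ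
  have hθs : ∀ m j, ContDiff ℝ ∞ (θ m j) := fun m j => th_contDiff (hg1 m) _
  set R : ℕ → ℕ → Rn n → ℂ := fun m j x => φ x * ∑ l, VV q G l x * pd l (θ m j) x with hR
  have hFm : ∀ m j x, FF (VV q G) h (fun y => φ y * θ m j y) x = θ m j x * F x + R m j x := by
    intro m j x
    exact FF_mul hφ.smooth (hθs m j) x
  have hmI : ∀ m j, Integrable (FF (VV q G) h (fun y => φ y * θ m j y)) := fun m j =>
    FF_integrable hB hcV hh (Test_mul hφ (hθs m j))
  have hθn : ∀ m j x, ‖θ m j x‖ ≤ 1 := by
    intro m j x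
    obtain ⟨t, h0, h1, ht⟩ := th_range (g m) (δ j) x
    simp only [hθ]
    rw [ht, Complex.norm_real, Real.norm_eq_abs, abs_of_nonneg h0]
    exact h1
  have h1θn : ∀ m j x, ‖1 - θ m j x‖ ≤ 1 := by
    intro m j x
    obtain ⟨t, h0, h1, ht⟩ := th_range (g m) (δ j) x
    simp only [hθ]
    rw [ht, ← Complex.ofReal_one, ← Complex.ofReal_sub, Complex.norm_real, Real.norm_eq_abs,
      abs_of_nonneg (by linarith)]
    linarith
  have hθFI : ∀ m j, Integrable (fun x => θ m j x * F x) := by
    intro m j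
    apply hFI.bdd_mul (c := 1) (hθs m j).continuous.aestronglyMeasurable
    filter_upwards with x using hθn m j x
  have h1θFI : ∀ m j, Integrable (fun x => (1 - θ m j x) * F x) := by
    intro m j
    apply hFI.bdd_mul (c := 1) (continuous_const.sub (hθs m j).continuous).aestronglyMeasurable
    filter_upwards with x using h1θn m j x
  have hRI : ∀ m j, Integrable (R m j) := by
    intro m j
    have : R m j = fun x => FF (VV q G) h (fun y => φ y * θ m j y) x - θ m j x * F x := by
      ext x; rw [hFm]; ring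
    rw [this]
    exact (hmI m j).sub (hθFI m j)
  -- where `∇G = 0`, `∇g` is small
  have hsmall : ∀ m x, x ∈ K' → (∀ k, pd k G x = 0) → ∀ j ≤ 2 * m, SS (g m) x < δ j ^ 2 := by
    intro m x hx h0 j hj
    have h1 : ∀ k, ‖pd k (g m) x‖ ≤ e' m := by
      intro k
      have := hg2 m x hx k
      rwa [h0 k, sub_zero] at this
    have h2 : ((1 : ℝ) / 2) ^ (2 * m + 3) < δ j :=
      pow_lt_pow_right_of_lt_one₀ (by norm_num) (by norm_num) (by omega)
    have h3 := (SS_le (he'0 m).le h1).trans (hne' m)
    refine h3.trans_lt ?_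
    exact pow_lt_pow_left₀ h2 (by positivity) two_ne_zero
  -- `T (φ θ) = 0`
  have hT0 : ∀ m j, j ≤ 2 * m → ∫ x, (θ m j x * F x + R m j x) = 0 := by
    intro m j hj
    have ht : Test (B \ Z) (fun y => φ y * θ m j y) := by
      refine ⟨(Test_mul hφ (hθs m j)).smooth, (Test_mul hφ (hθs m j)).cpt, ?_⟩
      have hcl : IsClosed (K ∩ {x | δ j ^ 2 ≤ SS (g m) x}) :=
        (isClosed_tsupport φ).inter (isClosed_le continuous_const (SS_contDiff (hg1 m)).continuous)
      have hsub : tsupport (fun y => φ y * θ m j y) ⊆ K ∩ {x | δ j ^ 2 ≤ SS (g m) x} := by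
        apply closure_minimal _ hcl
        intro x hx
        rw [Function.mem_support] at hx
        refine ⟨subset_tsupport _ (left_ne_zero_of_mul hx), ?_⟩
        by_contra hlt
        exact right_ne_zero_of_mul hx (th_zero (le_of_lt (not_le.1 hlt)))
      intro x hx
      obtain ⟨hxK, hxg⟩ := hsub hx
      refine ⟨hKB hxK, fun hxZ => ?_⟩
      have h0 := hZ x ⟨hKB hxK, hxZ⟩
      exact absurd hxg (not_le.2 (hsmall m x (hKK' hxK) h0 j hj))
    have := hnull _ ht
    rw [TT_eq] at this
    rw [← this]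
    congr 1
    ext x
    rw [hFm]
  have hT1 : ∀ m j, j ≤ 2 * m → ∫ x, F x = (∫ x, (1 - θ m j x) * F x) - ∫ x, R m j x := by
    intro m j hj
    have h0 := hT0 m j hj
    rw [integral_add (hθFI m j) (hRI m j)] at h0
    have h1 : ∫ x, F x = (∫ x, (1 - θ m j x) * F x) + ∫ x, θ m j x * F x := by
      rw [← integral_add (h1θFI m j) (hθFI m j)]
      congr 1
      ext x; ring
    rw [h1]
    linear_combination h0
  -- the sum of the remainders
  set c : ℝ := 6 * n * A2 * Φ * D * (n ^ 2 + 1) with hc
  have hc0 : 0 ≤ c := by positivity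
  have hRb : ∀ m x, ∑ j ∈ Finset.Ioc m (2 * m), ‖R m j x‖ ≤
      c * (K.indicator (fun _ => (1 : ℝ)) x + (Sn m).indicator (En m) x) := by
    intro m x
    by_cases hxK : x ∈ K
    · have hxK' := hKK' hxK
      have hχx : χ x = 1 := hχ1 x hxK
      have hzero : ∀ j, (SS (g m) x ≤ δ j ^ 2 ∨ (2 * δ j) ^ 2 ≤ SS (g m) x) → ‖R m j x‖ = 0 := by
        intro j hj
        simp only [hR, hθ]
        rw [Finset.sum_eq_zero]
        · simp
        · intro l _
          rw [pd_th_zero (hg1 m) (hδ0 j) l hj, mul_zero]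
      have hInd0 : 0 ≤ (Sn m).indicator (En m) x := by
        apply indicator_nonneg
        intro y _; exact hEn0 m y
      by_cases hex : ∃ j ∈ Finset.Ioc m (2 * m), δ j ^ 2 < SS (g m) x ∧ SS (g m) x < (2 * δ j) ^ 2
      · obtain ⟨j, hj, hj1, hj2⟩ := hex
        rw [Finset.sum_eq_single j]
        · rw [Finset.mem_Ioc] at hj
          have hgn : ∀ i, ‖pd i G x‖ ≤ 3 * δ j := by
            intro i
            have h1 := hg2 m x hxK' i
            have h3 : ‖pd i G x‖ ≤ ‖pd i (g m) x - pd i G x‖ + ‖pd i (g m) x‖ := by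
              have := norm_sub_le (pd i (g m) x) (pd i (g m) x - pd i G x)
              rw [sub_sub_cancel] at this
              linarith
            have h2 : ((1 : ℝ) / 2) ^ (2 * m + 3) < δ j :=
              pow_lt_pow_right_of_lt_one₀ (by norm_num) (by norm_num) (by omega)
            have h4 := pd_le_of_SS (by have := hδ0 j; positivity) hj2.le i
            have := he'1 m
            linarith
          have hVb : ∀ l, ‖VV q G l x‖ ≤ n * A2 * (3 * δ j) := by
            intro l
            unfold VV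
            calc ‖∑ i, (q i l x : ℂ) * pd i G x‖ ≤ ∑ i, ‖(q i l x : ℂ) * pd i G x‖ :=
                  norm_sum_le _ _
              _ ≤ ∑ _i : Fin n, A2 * (3 * δ j) := by
                  apply Finset.sum_le_sum
                  intro i _
                  rw [norm_mul, Complex.norm_real, Real.norm_eq_abs]
                  exact mul_le_mul (hA2 x hxK' i l) (hgn i) (norm_nonneg _) hA20
              _ = n * A2 * (3 * δ j) := by simp; ring
          have bl : ∀ l, δ j * ‖pd l (θ m j) x‖ ≤ 2 * D * ∑ k, ‖pd l (pd k (g m)) x‖ := fun l =>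
            pd_th_bound (hg1 m) (hδ0 j) hD0 hD l (x := x) hj2.le
          have hxS : x ∈ Sn m := by
            simp only [hSn]
            show (2 * ((1 : ℝ) / 2) ^ (2 * m + 1)) ^ 2 ≤ SS (g m) x
            have h1 : δ (2 * m) ≤ δ j := pow_le_pow_of_le_one (by norm_num) (by norm_num) hj.2
            have h2 : 2 * ((1 : ℝ) / 2) ^ (2 * m + 1) = δ (2 * m) := by
              simp only [hδ]; rw [pow_succ]; ring
            rw [h2]
            exact (pow_le_pow_left₀ (hδ0 _).le h1 2).trans hj1.le
          rw [indicator_of_mem hxK, indicator_of_mem hxS]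
          simp only [hEn, hχx, one_pow, one_mul]
          have hsum : ∑ l, ∑ k, ‖pd l (pd k (g m)) x‖ ≤
              (n ^ 2 + 1) * (1 + ∑ k, ∑ j, ‖pd j (pd k (g m)) x‖ ^ 2) := by
            set E := ∑ k, ∑ j, ‖pd j (pd k (g m)) x‖ ^ 2 with hEdef
            have hE0 : 0 ≤ E := Finset.sum_nonneg fun _ _ => Finset.sum_nonneg
              fun _ _ => by positivity
            have h1 : ∑ l, ∑ k, ‖pd l (pd k (g m)) x‖ ≤
                ∑ _l : Fin n, ∑ _k : Fin n, (1 + E) := by
              apply Finset.sum_le_sum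
              intro l _
              apply Finset.sum_le_sum
              intro k _
              have h2 : ‖pd l (pd k (g m)) x‖ ^ 2 ≤ E := by
                refine (Finset.single_le_sum (f := fun j => ‖pd j (pd k (g m)) x‖ ^ 2)
                  (fun _ _ => by positivity) (Finset.mem_univ l)).trans ?_
                exact Finset.single_le_sum (f := fun k => ∑ j, ‖pd j (pd k (g m)) x‖ ^ 2)
                  (fun _ _ => Finset.sum_nonneg fun _ _ => by positivity) (Finset.mem_univ k)
              nlinarith [sq_nonneg (‖pd l (pd k (g m)) x‖ - 1)]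
            refine h1.trans ?_
            simp only [Finset.sum_const, Finset.card_univ, Fintype.card_fin, nsmul_eq_mul]
            nlinarith
          have hΦx := hΦ x
          calc ‖R m j x‖ = ‖φ x‖ * ‖∑ l, VV q G l x * pd l (θ m j) x‖ := by
                simp only [hR, norm_mul]
            _ ≤ Φ * ∑ l, (n * A2 * (3 * δ j)) * ‖pd l (θ m j) x‖ := by
                apply mul_le_mul hΦx _ (norm_nonneg _) hΦ0
                refine (norm_sum_le _ _).trans (Finset.sum_le_sum fun l _ => ?_)
                rw [norm_mul]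
                exact mul_le_mul_of_nonneg_right (hVb l) (norm_nonneg _)
            _ = 3 * n * A2 * Φ * ∑ l, δ j * ‖pd l (θ m j) x‖ := by
                rw [Finset.mul_sum, Finset.mul_sum]
                apply Finset.sum_congr rfl
                intro l _
                ring
            _ ≤ 3 * n * A2 * Φ * ∑ l, 2 * D * ∑ k, ‖pd l (pd k (g m)) x‖ := by
                apply mul_le_mul_of_nonneg_left _ (by positivity)
                exact Finset.sum_le_sum fun l _ => bl l
            _ = 6 * n * A2 * Φ * D * ∑ l, ∑ k, ‖pd l (pd k (g m)) x‖ := by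
                rw [← Finset.mul_sum]
                ring
            _ ≤ 6 * n * A2 * Φ * D * ((n ^ 2 + 1) *
                  (1 + ∑ k, ∑ j, ‖pd j (pd k (g m)) x‖ ^ 2)) := by
                apply mul_le_mul_of_nonneg_left hsum (by positivity)
            _ = c * (1 + ∑ k, ∑ j, ‖pd j (pd k (g m)) x‖ ^ 2) := by rw [hc]; ring
        · intro i _ hij
          apply hzero
          rcases lt_or_gt_of_ne hij with hlt | hgt
          · left
            have h1 := hδle hlt
            have h2 : (2 * δ j) ^ 2 ≤ δ i ^ 2 := pow_le_pow_left₀ (by have := hδ0 j; positivity) h1 2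
            linarith
          · right
            have h1 := hδle hgt
            have h2 : (2 * δ i) ^ 2 ≤ δ j ^ 2 := pow_le_pow_left₀ (by have := hδ0 i; positivity) h1 2
            linarith
        · intro hj'
          exact absurd hj hj'
      · rw [Finset.sum_eq_zero]
        · apply mul_nonneg hc0
          apply add_nonneg _ hInd0
          apply indicator_nonneg
          intro y _; exact zero_le_one
        · intro j hj
          apply hzero
          by_contra hcon
          rw [not_or, not_le, not_le] at hcon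
          exact hex ⟨j, hj, hcon⟩
    · have h0 : φ x = 0 := by
        by_contra hne
        exact hxK (subset_tsupport _ hne)
      rw [Finset.sum_eq_zero]
      · apply mul_nonneg hc0
        apply add_nonneg
        · apply indicator_nonneg
          intro y _; exact zero_le_one
        · apply indicator_nonneg
          intro y _; exact hEn0 m y
      · intro j _
        simp [hR, h0]
  have hKm : MeasurableSet K := (isClosed_tsupport φ).measurableSet
  have hKI : Integrable (K.indicator (fun _ => (1 : ℝ))) := by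
    rw [integrable_indicator_iff hKm]
    exact integrableOn_const hKc.measure_lt_top.ne (by simp)
  have hRsum : ∀ m, ‖∑ j ∈ Finset.Ioc m (2 * m), ∫ x, R m j x‖ ≤
      c * ((∫ x, K.indicator (fun _ => (1 : ℝ)) x) + C) := by
    intro m
    rw [← integral_finsetSum _ (fun j _ => hRI m j)]
    calc ‖∫ x, ∑ j ∈ Finset.Ioc m (2 * m), R m j x‖
        ≤ ∫ x, ‖∑ j ∈ Finset.Ioc m (2 * m), R m j x‖ := norm_integral_le_integral_norm _
      _ ≤ ∫ x, c * (K.indicator (fun _ => (1 : ℝ)) x + (Sn m).indicator (En m) x) := by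
          apply integral_mono
          · exact (integrable_finsetSum _ (fun j _ => hRI m j)).norm
          · exact (hKI.add ((hEnI m).indicator (hSnm m))).const_mul c
          · intro x
            exact (norm_sum_le _ _).trans (hRb m x)
      _ = c * ((∫ x, K.indicator (fun _ => (1 : ℝ)) x) + ∫ x in Sn m, En m x) := by
          rw [integral_const_mul, integral_add hKI ((hEnI m).indicator (hSnm m)),
            integral_indicator (hSnm m)]
      _ ≤ c * ((∫ x, K.indicator (fun _ => (1 : ℝ)) x) + C) := by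
          gcongr
          exact hEnC m
  -- averages
  set w : ℕ → Rn n → ℂ := fun m x => (1 / (m : ℂ)) * ∑ j ∈ Finset.Ioc m (2 * m), (1 - θ m j x)
    with hw
  have hcard : ∀ m : ℕ, (Finset.Ioc m (2 * m)).card = m := by
    intro m; rw [Nat.card_Ioc]; omega
  have hwF : ∀ m : ℕ, 1 ≤ m → ∫ x, w m x * F x = (∫ x, F x) +
      (1 / (m : ℂ)) * ∑ j ∈ Finset.Ioc m (2 * m), ∫ x, R m j x := by
    intro m hm
    have hn0 : (m : ℂ) ≠ 0 := by exact_mod_cast (by omega : m ≠ 0)
    have h1 : ∫ x, w m x * F x =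
        (1 / (m : ℂ)) * ∑ j ∈ Finset.Ioc m (2 * m), ∫ x, (1 - θ m j x) * F x := by
      rw [← integral_finsetSum _ (fun j _ => h1θFI m j), ← integral_const_mul]
      congr 1
      ext x
      simp only [hw]
      rw [mul_assoc, Finset.sum_mul]
    have h2 : ∑ j ∈ Finset.Ioc m (2 * m), ∫ x, (1 - θ m j x) * F x =
        ∑ j ∈ Finset.Ioc m (2 * m), ((∫ x, F x) + ∫ x, R m j x) := by
      apply Finset.sum_congr rfl
      intro j hj
      rw [Finset.mem_Ioc] at hj
      rw [hT1 m j hj.2]
      ring
    rw [h1, h2, Finset.sum_add_distrib, Finset.sum_const, hcard, nsmul_eq_mul, mul_add]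
    congr 1
    field_simp
  set c' : ℝ := c * ((∫ x, K.indicator (fun _ => (1 : ℝ)) x) + C) with hc'
  have lim1 : Tendsto (fun m : ℕ => ∫ x, w m x * F x) atTop (𝓝 (∫ x, F x)) := by
    rw [tendsto_iff_norm_sub_tendsto_zero]
    have hz : Tendsto (fun m : ℕ => c' * (1 / (m : ℝ))) atTop (𝓝 0) := by
      have := tendsto_one_div_atTop_nhds_zero_nat (𝕜 := ℝ)
      simpa using this.const_mul c'
    apply squeeze_zero' (Eventually.of_forall fun _ => norm_nonneg _) _ hz
    filter_upwards [eventually_ge_atTop 1] with m hm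
    rw [hwF m hm, add_sub_cancel_left, norm_mul, mul_comm]
    refine mul_le_mul (hRsum m) (le_of_eq ?_) (norm_nonneg _) ((norm_nonneg _).trans (hRsum m))
    rw [norm_div, norm_one, Complex.norm_natCast]
  have lim2 : Tendsto (fun m : ℕ => ∫ x, w m x * F x) atTop
      (𝓝 (∫ x, (if ∀ k, pd k G x = 0 then F x else 0))) := by
    apply tendsto_integral_of_dominated_convergence (fun x => ‖F x‖)
    · intro m
      apply AEStronglyMeasurable.mul _ hFI.aestronglyMeasurable
      apply Continuous.aestronglyMeasurable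
      simp only [hw]
      exact continuous_const.mul (continuous_finsetSum _
        (fun j _ => continuous_const.sub (hθs m j).continuous))
    · exact hFI.norm
    · intro m
      filter_upwards with x
      rw [norm_mul]
      have : ‖w m x‖ ≤ 1 := by
        simp only [hw]
        rw [norm_mul]
        rcases Nat.eq_zero_or_pos m with rfl | hn
        · simp
        · have hn' : (0 : ℝ) < m := by exact_mod_cast hn
          have h1 : ‖∑ j ∈ Finset.Ioc m (2 * m), (1 - θ m j x)‖ ≤ m := by
            calc ‖∑ j ∈ Finset.Ioc m (2 * m), (1 - θ m j x)‖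
                ≤ ∑ j ∈ Finset.Ioc m (2 * m), ‖(1 - θ m j x)‖ := norm_sum_le _ _
              _ ≤ ∑ j ∈ Finset.Ioc m (2 * m), (1 : ℝ) :=
                  Finset.sum_le_sum (fun j _ => h1θn m j x)
              _ = m := by rw [Finset.sum_const, hcard]; simp
          rw [norm_div, norm_one, Complex.norm_natCast]
          rw [div_mul_eq_mul_div, one_mul, div_le_one hn']
          exact h1
      calc ‖w m x‖ * ‖F x‖ ≤ 1 * ‖F x‖ := by gcongr
        _ = ‖F x‖ := one_mul _
    · filter_upwards with x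
      by_cases hxK : x ∈ K
      · have hxK' := hKK' hxK
        by_cases hGx : ∀ k, pd k G x = 0
        · rw [if_pos hGx]
          apply tendsto_const_nhds.congr'
          filter_upwards [eventually_ge_atTop 1] with m hm
          have hn0 : (m : ℂ) ≠ 0 := by exact_mod_cast (by omega : m ≠ 0)
          have : ∀ j ∈ Finset.Ioc m (2 * m), 1 - θ m j x = 1 := by
            intro j hj
            rw [Finset.mem_Ioc] at hj
            simp only [hθ]
            rw [th_zero (hsmall m x hxK' hGx j hj.2).le, sub_zero]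
          simp only [hw]
          rw [Finset.sum_congr rfl this, Finset.sum_const, hcard, nsmul_eq_mul, mul_one,
            one_div, inv_mul_cancel₀ hn0, one_mul]
        · rw [if_neg hGx]
          apply tendsto_const_nhds.congr'
          rw [not_forall] at hGx
          obtain ⟨k, hk⟩ := hGx
          have hpos' : 0 < ‖pd k G x‖ := norm_pos_iff.2 hk
          have hlim : Tendsto (fun m : ℕ => 2 * ((1 : ℝ) / 2) ^ m) atTop (𝓝 0) := by
            have := tendsto_pow_atTop_nhds_zero_of_lt_one (r := (1 / 2 : ℝ)) (by norm_num)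
              (by norm_num)
            simpa using this.const_mul 2
          filter_upwards [hlim.eventually (gt_mem_nhds hpos')] with m hm
          have hge : δ m ^ 2 ≤ SS (g m) x := by
            have h1 := hg2 m x hxK' k
            have h3 : ‖pd k G x‖ ≤ ‖pd k (g m) x - pd k G x‖ + ‖pd k (g m) x‖ := by
              have := norm_sub_le (pd k (g m) x) (pd k (g m) x - pd k G x)
              rw [sub_sub_cancel] at this
              linarith
            have h4 : ((1 : ℝ) / 2) ^ (2 * m + 3) ≤ δ m :=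
              pow_le_pow_of_le_one (by norm_num) (by norm_num) (by omega)
            have h5 : 2 * δ m < ‖pd k G x‖ := hm
            have h6 : δ m ≤ ‖pd k (g m) x‖ := by linarith [he'1 m]
            refine (pow_le_pow_left₀ (hδ0 m).le h6 2).trans ?_
            exact Finset.single_le_sum (f := fun k => ‖pd k (g m) x‖ ^ 2)
              (fun _ _ => by positivity) (Finset.mem_univ k)
          have : ∀ j ∈ Finset.Ioc m (2 * m), 1 - θ m j x = 0 := by
            intro j hj
            rw [Finset.mem_Ioc] at hj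
            have h2 : 2 * δ j ≤ δ m := hδle hj.1
            simp only [hθ]
            rw [th_one (hδ0 j), sub_self]
            exact (pow_le_pow_left₀ (by have := hδ0 j; positivity) h2 2).trans hge
          simp only [hw]
          rw [Finset.sum_congr rfl this]
          simp
      · rw [hF0 x hxK]
        simp
  have heq := tendsto_nhds_unique lim1 lim2
  rw [TT_eq]
  change ∫ x, F x = _
  rw [heq]
  congr 1
  ext x
  by_cases hGx : ∀ k, pd k G x = 0
  · rw [if_pos hGx, if_pos hGx]
    simp only [hF, FF]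
    rw [Finset.sum_eq_zero, zero_add]
    intro j _
    unfold VV
    rw [Finset.sum_eq_zero, zero_mul]
    intro i _
    rw [hGx i, mul_zero]
  · rw [if_neg hGx, if_neg hGx]

end Rad

open Rad in
theorem rad (n : ℕ) (hE : EnStm n) (hM : MolStm n) : RadStm n := by
  classical
  intro B hB q hq hsym hpos G h hG hh Z hZo hZ hnull
  have key : ∀ φ, Test B φ → TT (VV q G) h φ =
      ∫ x, (if ∀ k, pd k G x = 0 then h x * φ x else 0) := fun φ hφ => by
    rw [step1 hE hM hB hq hsym hpos hG hh hZo (fun x hx => (hZ x hx).1) hnull hφ]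
  set W := B \ Z with hW
  have hWB : W ⊆ B := fun x hx => hx.1
  set s : Set (Rn n) := {x | x ∈ W ∧ ∀ k, pd k G x = 0} with hs
  have hsm : MeasurableSet s := by
    have h1 : IsOpen (⋃ k, (W ∩ (pd k G) ⁻¹' {0}ᶜ)) := isOpen_iUnion fun k =>
      ((pd_continuousOn hB hG k).mono hWB).isOpen_inter_preimage hZo isOpen_compl_singleton
    have h2 : s = W \ (⋃ k, (W ∩ (pd k G) ⁻¹' {0}ᶜ)) := by
      ext x
      constructor
      · rintro ⟨hx, h0⟩
        refine ⟨hx, ?_⟩
        rw [mem_iUnion]
        rintro ⟨k, -, hk⟩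
        exact hk (h0 k)
      · rintro ⟨hx, h0⟩
        refine ⟨hx, fun k => ?_⟩
        by_contra hk
        exact h0 (mem_iUnion.2 ⟨k, hx, hk⟩)
    rw [h2]
    exact hZo.measurableSet.diff h1.measurableSet
  have hloc : LocallyIntegrableOn (s.indicator h) W := by
    intro x hx
    have h1 : LocallyIntegrableOn h W := (hh.mono hWB).locallyIntegrableOn hZo.measurableSet
    obtain ⟨t, ht, hti⟩ := h1 x hx
    exact ⟨t, ht, Integrable.indicator hti hsm⟩
  have hae : ∀ᵐ x, x ∈ W → s.indicator h x = 0 := by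
    apply hZo.ae_eq_zero_of_integral_contDiff_smul_eq_zero hloc
    intro ψ hψ hψc hψW
    have ht : Test W (fun x => ((ψ x : ℝ) : ℂ)) := by
      refine ⟨Complex.ofRealCLM.contDiff.comp hψ, ?_, ?_⟩
      · exact hψc.comp_left (g := fun t : ℝ => (t : ℂ)) (by simp)
      · refine (closure_mono ?_).trans hψW
        intro x hx
        rw [Function.mem_support] at hx ⊢
        intro h0
        exact hx (by simp [h0])
    have h1 := hnull _ ht
    have h2 := key _ ⟨ht.smooth, ht.cpt, ht.sub.trans hWB⟩
    rw [h1] at h2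
    rw [h2]
    congr 1
    ext x
    by_cases hxW : x ∈ W
    · by_cases hGx : ∀ k, pd k G x = 0
      · rw [if_pos hGx, indicator_of_mem (show x ∈ s from ⟨hxW, hGx⟩)]
        simp [mul_comm]
      · rw [if_neg hGx, indicator_of_notMem (fun hx : x ∈ s => hGx hx.2)]
        simp
    · have h0 : ψ x = 0 := by
        by_contra hne
        exact hxW (hψW (subset_tsupport _ hne))
      simp [h0]
  intro φ hφ
  rw [key φ hφ]
  apply integral_eq_zero_of_ae
  filter_upwards [hae] with x hx
  by_cases hGx : ∀ k, pd k G x = 0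
  · rw [if_pos hGx]
    by_cases hxB : x ∈ B
    · by_cases hxZ : x ∈ Z
      · rw [(hZ x ⟨hxB, hxZ⟩).2]
        simp
      · have hxW : x ∈ W := ⟨hxB, hxZ⟩
        have := hx hxW
        rw [indicator_of_mem (show x ∈ s from ⟨hxW, hGx⟩)] at this
        rw [this]
        simp
    · have h0 : φ x = 0 := by
        by_contra hne
        exact hxB (hφ.sub (subset_tsupport _ hne))
      simp [h0]
  · rw [if_neg hGx]
    simp

end Pool.Agent.H256.RN
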