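import Pool.Agent.H256.RN.Stm

/-!
# Partial integration in `ℝⁿ`
-/

open MeasureTheory Set Filter Topology
open scoped ContDiff

noncomputable section

namespace Pool.Agent.H256.RN

variable {n : ℕ}

/-! ### Regularity -/

theorem pd_contDiffOn {U : Set (Rn n)} (hU : IsOpen U) {r m : ℕ∞ω} (hnm : m + 1 ≤ r) (e : Fin n)
    {f : Rn n → ℂ} (hf : ContDiffOn ℝ r f U) : ContDiffOn ℝ m (pd e f) U :=
  (hf.fderiv_of_isOpen hU hnm).clm_apply contDiffOn_const

theorem dw_contDiffOn {U : Set (Rn n)} (hU : IsOpen U) (w : List (Fin n)) :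
    ∀ (m : ℕ) (f : Rn n → ℂ), ContDiffOn ℝ ((m + w.length : ℕ) : ℕ∞ω) f U →
      ContDiffOn ℝ (m : ℕ∞ω) (dw w f) U := by
  induction w with
  | nil => intro m f hf; simpa [dw] using hf
  | cons j w ih =>
    intro m f hf
    have h1 : ContDiffOn ℝ ((m + 1 : ℕ) : ℕ∞ω) (dw w f) U := by
      refine ih (m + 1) f (hf.of_le ?_)
      simp only [List.length_cons]
      exact_mod_cast (by omega : m + 1 + w.length ≤ m + (w.length + 1))
    show ContDiffOn ℝ (m : ℕ∞ω) (pd j (dw w f)) U
    exact pd_contDiffOn hU (by exact_mod_cast le_rfl) j h1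

theorem dw_append (u v : List (Fin n)) (f : Rn n → ℂ) : dw (u ++ v) f = dw u (dw v f) := by
  induction u with
  | nil => rfl
  | cons j u ih => show pd j (dw (u ++ v) f) = pd j (dw u (dw v f)); rw [ih]

theorem Test.contDiffOn {U : Set (Rn n)} {φ : Rn n → ℂ} (h : Test U φ) (V : Set (Rn n)) :
    ContDiffOn ℝ ∞ φ V := h.smooth.contDiffOn

theorem Test.pd {U : Set (Rn n)} {φ : Rn n → ℂ} (h : Test U φ) (e : Fin n) :
    Test U (pd e φ) where
  smooth := (h.smooth.fderiv_right (m := ∞) le_rfl).clm_apply contDiff_const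
  cpt := h.cpt.fderiv_apply ℝ _
  sub := (tsupport_fderiv_apply_subset ℝ _).trans h.sub

theorem Test.dw {U : Set (Rn n)} {φ : Rn n → ℂ} (h : Test U φ) (w : List (Fin n)) :
    Test U (dw w φ) := by
  induction w with
  | nil => exact h
  | cons j w ih => exact ih.pd j

theorem Test.off {U : Set (Rn n)} {φ : Rn n → ℂ} (h : Test U φ) {x : Rn n} (hx : x ∉ U) :
    φ x = 0 :=
  image_eq_zero_of_notMem_tsupport fun hx' => hx (h.sub hx')

theorem Test.zero (U : Set (Rn n)) : Test U fun _ => (0 : ℂ) :=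
  ⟨contDiff_const, HasCompactSupport.zero, by
    rw [show tsupport (fun _ : Rn n => (0 : ℂ)) = ∅ by
      rw [tsupport_eq_empty_iff]; rfl]
    exact empty_subset _⟩

theorem Test.add {U : Set (Rn n)} {u v : Rn n → ℂ} (hu : Test U u) (hv : Test U v) :
    Test U fun x => u x + v x :=
  ⟨hu.smooth.add hv.smooth, hu.cpt.add hv.cpt,
    (tsupport_add u v).trans (union_subset hu.sub hv.sub)⟩

theorem Test.neg {U : Set (Rn n)} {u : Rn n → ℂ} (hu : Test U u) : Test U fun x => -u x :=
  ⟨hu.smooth.neg, hu.cpt.comp_left (g := fun z : ℂ => -z) neg_zero, by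
    refine subset_trans (closure_mono fun x hx => fun h => hx ?_) hu.sub
    simp only [h, neg_zero]⟩

theorem Test.sum {U : Set (Rn n)} {ι : Type*} (s : Finset ι) {u : ι → Rn n → ℂ}
    (hu : ∀ i ∈ s, Test U (u i)) : Test U fun x => ∑ i ∈ s, u i x := by
  classical
  induction s using Finset.induction_on with
  | empty => simpa using Test.zero U
  | insert i s hi ih =>
    simp only [Finset.sum_insert hi]
    exact (hu i (Finset.mem_insert_self i s)).add
      (ih fun j hj => hu j (Finset.mem_insert_of_mem hj))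

/-- a function which is nice on an open set times a function with compact support there -/
theorem mul_contDiff {U : Set (Rn n)} (hU : IsOpen U) {r : ℕ∞ω} {g φ : Rn n → ℂ}
    (hg : ContDiffOn ℝ r g U) (hφ : ContDiff ℝ r φ) (hs : tsupport φ ⊆ U) :
    ContDiff ℝ r (fun x => g x * φ x) := by
  rw [contDiff_iff_contDiffAt]
  intro x
  by_cases hx : x ∈ U
  · exact (hg.contDiffAt (hU.mem_nhds hx)).mul hφ.contDiffAt
  · have h1 : x ∈ (tsupport φ)ᶜ := fun h => hx (hs h)
    have h2 : (fun x => g x * φ x) =ᶠ[𝓝 x] fun _ => 0 := by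
      filter_upwards [(isClosed_tsupport φ).isOpen_compl.mem_nhds h1] with y hy
      rw [image_eq_zero_of_notMem_tsupport hy, mul_zero]
    exact contDiffAt_const.congr_of_eventuallyEq h2

theorem mul_tsupport (g φ : Rn n → ℂ) : tsupport (fun x => g x * φ x) ⊆ tsupport φ :=
  closure_mono fun x hx => fun h => hx (by simp only [h, mul_zero])

theorem Test.mul {U : Set (Rn n)} (hU : IsOpen U) {g φ : Rn n → ℂ} (hg : ContDiffOn ℝ ∞ g U)
    (h : Test U φ) : Test U (fun x => g x * φ x) where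
  smooth := mul_contDiff hU hg h.smooth h.sub
  cpt := h.cpt.mul_left
  sub := (mul_tsupport g φ).trans h.sub

theorem mul_integrable {U : Set (Rn n)} (hU : IsOpen U) {g φ : Rn n → ℂ}
    (hg : ContinuousOn g U) (hφ : Continuous φ) (hc : HasCompactSupport φ)
    (hs : tsupport φ ⊆ U) : Integrable (fun x => g x * φ x) := by
  refine Continuous.integrable_of_hasCompactSupport ?_ hc.mul_left
  exact (mul_contDiff hU (contDiffOn_zero.2 hg) (contDiff_zero.2 hφ) hs).continuous

theorem Test.integrable {U : Set (Rn n)} (hU : IsOpen U) {g φ : Rn n → ℂ}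
    (hg : ContinuousOn g U) (h : Test U φ) : Integrable (fun x => g x * φ x) :=
  mul_integrable hU hg h.smooth.continuous h.cpt h.sub

theorem pd_mul {x : Rn n} (e : Fin n) {g φ : Rn n → ℂ} (hg : DifferentiableAt ℝ g x)
    (hφ : DifferentiableAt ℝ φ x) :
    pd e (fun y => g y * φ y) x = pd e g x * φ x + g x * pd e φ x := by
  unfold pd
  rw [fderiv_fun_mul hg hφ]
  simp only [ContinuousLinearMap.add_apply, ContinuousLinearMap.smul_apply, smul_eq_mul]
  ring

/-! ### Partial integration -/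

theorem ibp {U : Set (Rn n)} (hU : IsOpen U) {g φ : Rn n → ℂ} (hg : ContDiffOn ℝ 1 g U)
    (h : Test U φ) (e : Fin n) : ∫ x, g x * pd e φ x = -∫ x, pd e g x * φ x := by
  refine integral_mul_fderiv_eq_neg_fderiv_mul_of_integrable ?_ ?_ ?_ ?_ ?_
  · exact h.integrable hU (pd_contDiffOn hU (m := 0) (by simp) e hg).continuousOn
  · exact (h.pd e).integrable hU hg.continuousOn
  · exact h.integrable hU hg.continuousOn
  · intro x hx
    exact (hg.contDiffAt (hU.mem_nhds (h.sub hx))).differentiableAt (by simp)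
  · intro x _
    exact h.smooth.contDiffAt.differentiableAt (by simp)

theorem ibp_dw {U : Set (Rn n)} (hU : IsOpen U) (w : List (Fin n)) :
    ∀ (g φ : Rn n → ℂ), ContDiffOn ℝ (w.length : ℕ∞ω) g U → Test U φ →
      ∫ x, g x * dw w φ x = (-1) ^ w.length * ∫ x, dw w.reverse g x * φ x := by
  induction w with
  | nil => intro g φ _ _; simp [dw]
  | cons j w ih =>
    intro g φ hg h
    have h1 : ∀ x, dw (j :: w) φ x = pd j (dw w φ) x := fun x => rfl
    have h2 : ∀ x, dw (j :: w).reverse g x = dw w.reverse (pd j g) x := fun x => by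
      rw [List.reverse_cons, dw_append]; rfl
    simp only [h1, h2, List.length_cons]
    simp only [List.length_cons] at hg
    rw [ibp hU (hg.of_le (by exact_mod_cast (by omega : 1 ≤ w.length + 1))) (h.dw w) j,
      ih (pd j g) φ (pd_contDiffOn hU (by exact_mod_cast le_rfl) j hg) h]
    ring

/-! ### Zero order functionals from operators -/

/-- the transposed operator applied to `f` -/
def HH (m : ℕ) (c : List (Fin n) → Rn n → ℂ) (f : Rn n → ℂ) : Rn n → ℂ :=
  fun x => ∑ k ∈ Finset.range (m + 1), ∑ w : Fin k → Fin n,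
    (Complex.I ^ k * (-1) ^ k) * (dw (List.ofFn w).reverse f x * c (List.ofFn w) x)

theorem HH_contDiffOn {U : Set (Rn n)} (hU : IsOpen U) {m s : ℕ}
    {c : List (Fin n) → Rn n → ℂ} (hc : ∀ w, ContDiffOn ℝ ∞ (c w) U) {f : Rn n → ℂ}
    (hf : ContDiffOn ℝ ((s + m : ℕ) : ℕ∞ω) f U) : ContDiffOn ℝ (s : ℕ∞ω) (HH m c f) U := by
  unfold HH
  refine ContDiffOn.sum fun k hk => ContDiffOn.sum fun w _ => contDiffOn_const.mul
    (ContDiffOn.mul ?_ ((hc _).of_le ?_))
  · refine dw_contDiffOn hU _ s f (hf.of_le ?_)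
    rw [List.length_reverse, List.length_ofFn]
    rw [Finset.mem_range] at hk
    exact_mod_cast (by omega : s + k ≤ s + m)
  · exact_mod_cast le_top

theorem HH_zero {m : ℕ} {c : List (Fin n) → Rn n → ℂ} {f : Rn n → ℂ} {x : Rn n}
    (h : ∀ w : List (Fin n), w.length ≤ m → dw w f x = 0) : HH m c f x = 0 := by
  unfold HH
  refine Finset.sum_eq_zero fun k hk => Finset.sum_eq_zero fun w _ => ?_
  rw [Finset.mem_range] at hk
  rw [h _ (by rw [List.length_reverse, List.length_ofFn]; omega), zero_mul, mul_zero]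

theorem pd_HH_zero {U : Set (Rn n)} (hU : IsOpen U) {m : ℕ}
    {c : List (Fin n) → Rn n → ℂ} (hc : ∀ w, ContDiffOn ℝ ∞ (c w) U) {f : Rn n → ℂ}
    (hf : ContDiffOn ℝ ((1 + m : ℕ) : ℕ∞ω) f U) {x : Rn n} (hx : x ∈ U)
    (h : ∀ w : List (Fin n), w.length ≤ m + 1 → dw w f x = 0) (e : Fin n) :
    pd e (HH m c f) x = 0 := by
  have hd : ∀ (k : ℕ), k ≤ m → ∀ w : Fin k → Fin n,
      DifferentiableAt ℝ (dw (List.ofFn w).reverse f) x := by
    intro k hk w
    have h1 : ContDiffOn ℝ ((1 : ℕ) : ℕ∞ω) (dw (List.ofFn w).reverse f) U := by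
      refine dw_contDiffOn hU _ 1 f (hf.of_le ?_)
      rw [List.length_reverse, List.length_ofFn]
      exact_mod_cast (by omega : 1 + k ≤ 1 + m)
    exact (h1.contDiffAt (hU.mem_nhds hx)).differentiableAt (by simp)
  have hcd : ∀ w, DifferentiableAt ℝ (c w) x := fun w =>
    ((hc w).contDiffAt (hU.mem_nhds hx)).differentiableAt (by simp)
  have key : HasFDerivAt (HH m c f) (∑ k ∈ Finset.range (m + 1), ∑ w : Fin k → Fin n,
      (Complex.I ^ k * (-1) ^ k) •
        (fderiv ℝ (fun y => dw (List.ofFn w).reverse f y * c (List.ofFn w) y) x)) x := by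
    unfold HH
    refine HasFDerivAt.fun_sum fun k hk => HasFDerivAt.fun_sum fun w _ => ?_
    rw [Finset.mem_range] at hk
    exact (((hd k (by omega) w).mul (hcd _)).hasFDerivAt).const_mul _
  unfold pd
  rw [key.fderiv]
  rw [ContinuousLinearMap.sum_apply]
  refine Finset.sum_eq_zero fun k hk => ?_
  rw [ContinuousLinearMap.sum_apply]
  refine Finset.sum_eq_zero fun w _ => ?_
  rw [Finset.mem_range] at hk
  rw [ContinuousLinearMap.smul_apply]
  have h2 := pd_mul e (hd k (by omega) w) (hcd (List.ofFn w))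
  unfold pd at h2
  rw [h2]
  have h3 : fderiv ℝ (dw (List.ofFn w).reverse f) x (EuclideanSpace.single e (1 : ℝ)) = 0 :=
    h (e :: (List.ofFn w).reverse) (by
      rw [List.length_cons, List.length_reverse, List.length_ofFn]; omega)
  rw [h3, h (List.ofFn w).reverse (by rw [List.length_reverse, List.length_ofFn]; omega)]
  simp

theorem int_At {U : Set (Rn n)} (hU : IsOpen U) {m : ℕ} {f : Rn n → ℂ}
    (hf : ContDiffOn ℝ (m : ℕ∞ω) f U) {c : List (Fin n) → Rn n → ℂ}
    (hc : ∀ w, ContDiffOn ℝ ∞ (c w) U) {ψ : Rn n → ℂ} (h : Test U ψ) :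
    ∫ x, f x * At m c ψ x = ∫ x, HH m c f x * ψ x := by
  have hlen : ∀ (k : ℕ) (w : Fin k → Fin n), (List.ofFn w).reverse.length = k := fun k w => by
    rw [List.length_reverse, List.length_ofFn]
  have hi : ∀ (k : ℕ) (w : Fin k → Fin n), Integrable fun x =>
      Complex.I ^ k * (f x * dw (List.ofFn w) (fun y => c (List.ofFn w) y * ψ y) x) := fun k w =>
    (((h.mul hU (hc _)).dw _).integrable hU hf.continuousOn).const_mul _
  have hj : ∀ (k : ℕ) (w : Fin k → Fin n), k ≤ m → Integrable fun x =>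
      (Complex.I ^ k * (-1) ^ k) *
        ((dw (List.ofFn w).reverse f x * c (List.ofFn w) x) * ψ x) := fun k w hk => by
    refine (h.integrable hU (ContinuousOn.mul ?_ (hc _).continuousOn)).const_mul _
    refine (dw_contDiffOn hU _ 0 f (hf.of_le ?_)).continuousOn
    rw [hlen k w]
    exact_mod_cast (by omega : 0 + k ≤ m)
  have e : (fun x => f x * At m c ψ x) = fun x => ∑ k ∈ Finset.range (m + 1),
      ∑ w : Fin k → Fin n,
        Complex.I ^ k * (f x * dw (List.ofFn w) (fun y => c (List.ofFn w) y * ψ y) x) := by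
    funext x
    unfold At
    rw [Finset.mul_sum]
    refine Finset.sum_congr rfl fun k _ => ?_
    rw [Finset.mul_sum]
    refine Finset.sum_congr rfl fun q _ => ?_
    ring
  have e' : (fun x => HH m c f x * ψ x) = fun x => ∑ k ∈ Finset.range (m + 1),
      ∑ w : Fin k → Fin n, (Complex.I ^ k * (-1) ^ k) *
        ((dw (List.ofFn w).reverse f x * c (List.ofFn w) x) * ψ x) := by
    funext x
    unfold HH
    rw [Finset.sum_mul]
    refine Finset.sum_congr rfl fun k _ => ?_
    rw [Finset.sum_mul]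
    refine Finset.sum_congr rfl fun q _ => ?_
    ring
  rw [e, e', integral_finsetSum _ fun k _ => integrable_finsetSum _ fun w _ => hi k w,
    integral_finsetSum _ fun k hk => integrable_finsetSum _ fun w _ =>
      hj k w (by rw [Finset.mem_range] at hk; omega)]
  refine Finset.sum_congr rfl fun k hk => ?_
  rw [Finset.mem_range] at hk
  rw [integral_finsetSum _ fun w _ => hi k w, integral_finsetSum _ fun w _ => hj k w (by omega)]
  refine Finset.sum_congr rfl fun w _ => ?_
  have hl : (List.ofFn w).length = k := List.length_ofFn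
  rw [integral_const_mul, integral_const_mul, ibp_dw hU (List.ofFn w) f _ (hf.of_le (by
    rw [hl]; exact_mod_cast (by omega : k ≤ m))) (h.mul hU (hc _)), hl, mul_assoc]
  congr 2
  congr 1
  funext x
  ring

/-- one derivative on `a φ` -/
theorem pd_mul_test {U : Set (Rn n)} (hU : IsOpen U) {a φ : Rn n → ℂ}
    (ha : ContDiffOn ℝ ∞ a U) (h : Test U φ) (e : Fin n) (G : Rn n → ℂ) (x : Rn n) :
    G x * pd e (fun y => a y * φ y) x = (G x * pd e a x) * φ x + (a x * G x) * pd e φ x := by
  by_cases hx : x ∈ U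
  · rw [pd_mul e ((ha.contDiffAt (hU.mem_nhds hx)).differentiableAt (by simp))
      (h.smooth.contDiffAt.differentiableAt (by simp))]
    ring
  · rw [((h.mul hU ha).pd e).off hx, h.off hx, (h.pd e).off hx]
    ring

theorem Lt_test {U : Set (Rn n)} (hU : IsOpen U) {q : Fin n → Fin n → Rn n → ℝ}
    (hq : ∀ i j, ContDiffOn ℝ ∞ (fun y => (q i j y : ℂ)) U) {φ : Rn n → ℂ} (h : Test U φ) :
    Test U (Lt q φ) := by
  unfold Lt
  exact Test.neg (Test.sum _ fun i _ => Test.sum _ fun j _ => ((h.mul hU (hq i j)).pd j).pd i)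

theorem int_Lt {U : Set (Rn n)} (hU : IsOpen U) {q : Fin n → Fin n → Rn n → ℝ}
    (hq : ∀ i j, ContDiffOn ℝ ∞ (fun y => (q i j y : ℂ)) U) {G φ : Rn n → ℂ}
    (hG : ContDiffOn ℝ 1 G U) (h : Test U φ) :
    ∫ x, G x * Lt q φ x = ∫ x, ((∑ j, VV q G j x * pd j φ x) +
      (∑ i, ∑ j, pd i G x * pd j (fun y => (q i j y : ℂ)) x) * φ x) := by
  have hi : ∀ i j, Integrable fun x => -(G x * pd i (pd j (fun y => (q i j y : ℂ) * φ y)) x) :=
    fun i j => ((((h.mul hU (hq i j)).pd j).pd i).integrable hU hG.continuousOn).neg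
  have hpG : ∀ i, ContinuousOn (pd i G) U := fun i =>
    (pd_contDiffOn hU (m := 0) (by simp) i hG).continuousOn
  have hj : ∀ i j, Integrable fun x => pd i G x * pd j (fun y => (q i j y : ℂ) * φ y) x :=
    fun i j => ((h.mul hU (hq i j)).pd j).integrable hU (hpG i)
  have e : (fun x => G x * Lt q φ x) = fun x => ∑ i, ∑ j,
      -(G x * pd i (pd j (fun y => (q i j y : ℂ) * φ y)) x) := by
    funext x
    unfold Lt
    rw [mul_neg, Finset.mul_sum, ← Finset.sum_neg_distrib]
    refine Finset.sum_congr rfl fun i _ => ?_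
    rw [Finset.mul_sum, ← Finset.sum_neg_distrib]
  have e' : (fun x => (∑ j, VV q G j x * pd j φ x) +
      (∑ i, ∑ j, pd i G x * pd j (fun y => (q i j y : ℂ)) x) * φ x) = fun x => ∑ i, ∑ j,
        pd i G x * pd j (fun y => (q i j y : ℂ) * φ y) x := by
    funext x
    unfold VV
    have h1 : ∀ i j, pd i G x * pd j (fun y => (q i j y : ℂ) * φ y) x
        = (pd i G x * pd j (fun y => (q i j y : ℂ)) x) * φ x
          + ((q i j x : ℂ) * pd i G x) * pd j φ x := fun i j =>
      pd_mul_test hU (hq i j) h j (pd i G) x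
    simp only [h1, Finset.sum_add_distrib, Finset.sum_mul]
    rw [add_comm]
    congr 1
    exact Finset.sum_comm
  rw [e, e', integral_finsetSum _ fun i _ => integrable_finsetSum _ fun j _ => hi i j,
    integral_finsetSum _ fun i _ => integrable_finsetSum _ fun j _ => hj i j]
  refine Finset.sum_congr rfl fun i _ => ?_
  rw [integral_finsetSum _ fun j _ => hi i j, integral_finsetSum _ fun j _ => hj i j]
  refine Finset.sum_congr rfl fun j _ => ?_
  rw [integral_neg, ibp hU hG ((h.mul hU (hq i j)).pd j) i, neg_neg]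

theorem VV_continuousOn {U : Set (Rn n)} (hU : IsOpen U) {q : Fin n → Fin n → Rn n → ℝ}
    (hq : ∀ i j, ContDiffOn ℝ ∞ (fun y => (q i j y : ℂ)) U) {G : Rn n → ℂ}
    (hG : ContDiffOn ℝ 1 G U) (j : Fin n) : ContinuousOn (VV q G j) U :=
  continuousOn_finsetSum _ fun i _ => (hq i j).continuousOn.mul
    (pd_contDiffOn hU (m := 0) (by simp) i hG).continuousOn

theorem rep (n : ℕ) : RepStm n := by
  intro p hp O hO q b c hq hb hc _ f hf
  have hq' : ∀ i j, ContDiffOn ℝ ∞ (fun y => (q i j y : ℂ)) O := fun i j =>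
    Complex.ofRealCLM.contDiff.comp_contDiffOn (hq i j)
  have hf1 : ContDiffOn ℝ ((1 + (p - 2) : ℕ) : ℕ∞ω) f O :=
    hf.of_le (by exact_mod_cast (by omega : 1 + (p - 2) ≤ p - 1))
  have hf0 : ContDiffOn ℝ ((0 + (p - 1) : ℕ) : ℕ∞ω) f O :=
    hf.of_le (by exact_mod_cast (by omega : 0 + (p - 1) ≤ p - 1))
  have hf2 : ContDiffOn ℝ ((p - 2 : ℕ) : ℕ∞ω) f O :=
    hf.of_le (by exact_mod_cast (by omega : p - 2 ≤ p - 1))
  have hG : ContDiffOn ℝ 1 (HH (p - 2) b f) O := by
    simpa using HH_contDiffOn hO (s := 1) hb hf1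
  have hR : ContinuousOn (HH (p - 1) c f) O := (HH_contDiffOn hO (s := 0) hc hf0).continuousOn
  have hpG : ∀ i, ContinuousOn (pd i (HH (p - 2) b f)) O := fun i =>
    (pd_contDiffOn hO (m := 0) (by simp) i hG).continuousOn
  have hS : ContinuousOn (fun x => ∑ i, ∑ j, pd i (HH (p - 2) b f) x *
      pd j (fun y => (q i j y : ℂ)) x) O :=
    continuousOn_finsetSum _ fun i _ => continuousOn_finsetSum _ fun j _ =>
      (hpG i).mul (pd_contDiffOn hO (m := 0) (by simp) j (hq' i j)).continuousOn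
  refine ⟨HH (p - 2) b f, fun x => (∑ i, ∑ j, pd i (HH (p - 2) b f) x *
    pd j (fun y => (q i j y : ℂ)) x) + HH (p - 1) c f x, hG, hS.add hR, ?_, ?_⟩
  · intro x hx h0
    have h1 : ∀ k, pd k (HH (p - 2) b f) x = 0 := fun k =>
      pd_HH_zero hO hb hf1 hx (fun w hw => h0 w (by omega)) k
    refine ⟨h1, ?_⟩
    have h2 : HH (p - 1) c f x = 0 := HH_zero fun w hw => h0 w (by omega)
    simp only [h1, h2, zero_mul, Finset.sum_const_zero, add_zero]
  · intro φ hφ
    have hL := Lt_test hO hq' hφ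
    have hAt : ∀ (m : ℕ) (d : List (Fin n) → Rn n → ℂ), (∀ w, ContDiffOn ℝ ∞ (d w) O) →
        ∀ ψ, Test O ψ → Test O (At m d ψ) := by
      intro m d hd ψ hψ
      unfold At
      refine Test.sum _ fun k _ => Test.sum _ fun w _ => ?_
      have h3 := (hψ.mul hO (hd (List.ofFn w))).dw (List.ofFn w)
      exact h3.mul hO contDiffOn_const
    have i1 : Integrable fun x => f x * At (p - 2) b (Lt q φ) x :=
      (hAt _ b hb _ hL).integrable hO hf.continuousOn
    have i2 : Integrable fun x => f x * At (p - 1) c φ x :=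
      (hAt _ c hc _ hφ).integrable hO hf.continuousOn
    have e0 : (fun x => f x * (At (p - 2) b (Lt q φ) x + At (p - 1) c φ x))
        = fun x => f x * At (p - 2) b (Lt q φ) x + f x * At (p - 1) c φ x := by
      funext x; ring
    rw [e0, integral_add i1 i2, int_At hO hf2 hb hL, int_At hO hf hc hφ, int_Lt hO hq' hG hφ]
    unfold TT
    have i3 : Integrable fun x => (∑ j, VV q (HH (p - 2) b f) j x * pd j φ x) +
        (∑ i, ∑ j, pd i (HH (p - 2) b f) x * pd j (fun y => (q i j y : ℂ)) x) * φ x :=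
      (integrable_finsetSum _ fun j _ => (hφ.pd j).integrable hO
        (VV_continuousOn hO hq' hG j)).add (hφ.integrable hO hS)
    have i4 : Integrable fun x => HH (p - 1) c f x * φ x := hφ.integrable hO hR
    rw [← integral_add i3 i4]
    congr 1
    funext x
    ring

theorem jet (n : ℕ) : JetStm n := fun _ hU f m w hf => dw_contDiffOn hU w m f hf

end Pool.Agent.H256.RN
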