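import Pool.Agent.H256.RN.Def

/-!
# Statements of the steps
-/

open MeasureTheory Set Filter Topology
open scoped ContDiff

noncomputable section

namespace Pool.Agent.H256.RN

variable {n : ℕ}

/-- `T = 0` on `C_c^∞(U)`. -/
def Null (T : (Rn n → ℂ) → ℂ) (U : Set (Rn n)) : Prop := ∀ φ, Test U φ → T φ = 0

/-- `x` is in the support of `T`. -/
def Sp (T : (Rn n → ℂ) → ℂ) (x : Rn n) : Prop := ∀ U : Set (Rn n), IsOpen U → x ∈ U → ¬ Null T U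

/-- first order functional with continuous coefficients -/
def TT (V : Fin n → Rn n → ℂ) (h : Rn n → ℂ) (φ : Rn n → ℂ) : ℂ :=
  ∫ x, ((∑ j, V j x * pd j φ x) + h x * φ x)

/-- `V_j = ∑_i q_{ij} ∂_i G` -/
def VV (q : Fin n → Fin n → Rn n → ℝ) (G : Rn n → ℂ) : Fin n → Rn n → ℂ :=
  fun j x => ∑ i, (q i j x : ℂ) * pd i G x

/-- Localization. -/
def LocStm (n : ℕ) : Prop :=
  ∀ (V : Fin n → Rn n → ℂ) (h : Rn n → ℂ) (U : Set (Rn n)), IsOpen U →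
    (∀ j, ContinuousOn (V j) U) → ContinuousOn h U →
    (∀ x ∈ U, ∃ W : Set (Rn n), IsOpen W ∧ x ∈ W ∧ Null (TT V h) (W ∩ U)) →
      Null (TT V h) U

/-- `C¹` test functions. -/
def C1Stm (n : ℕ) : Prop :=
  ∀ (V : Fin n → Rn n → ℂ) (h : Rn n → ℂ) (U : Set (Rn n)), IsOpen U →
    (∀ j, ContinuousOn (V j) U) → ContinuousOn h U → Null (TT V h) U →
      ∀ ψ : Rn n → ℂ, ContDiff ℝ 1 ψ → HasCompactSupport ψ → tsupport ψ ⊆ U → TT V h ψ = 0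

/-- A `C¹` hypersurface is removable. -/
def HypStm (n : ℕ) : Prop :=
  ∀ (V : Fin n → Rn n → ℂ) (h : Rn n → ℂ) (U : Set (Rn n)), IsOpen U →
    (∀ j, ContinuousOn (V j) U) → ContinuousOn h U →
    ∀ g : Rn n → ℝ, ContDiffOn ℝ 1 g U → ∀ x0 ∈ U, fderiv ℝ g x0 ≠ 0 →
      Null (TT V h) (U ∩ {x | g x ≠ 0}) →
        ∃ W : Set (Rn n), IsOpen W ∧ x0 ∈ W ∧ W ⊆ U ∧ Null (TT V h) W

/-- If the support of `T` in `U` lies in `{d = 0}` and `d` vanishes to finite order at its points,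
then `T = 0` on `U`. -/
def OrdStm (n : ℕ) : Prop :=
  ∀ (V : Fin n → Rn n → ℂ) (h : Rn n → ℂ) (U : Set (Rn n)), IsOpen U →
    (∀ j, ContinuousOn (V j) U) → ContinuousOn h U →
    ∀ (m : ℕ) (d : Rn n → ℂ), ContDiffOn ℝ m d U →
      (∀ x ∈ U, Sp (TT V h) x → d x = 0) →
      (∀ x ∈ U, Sp (TT V h) x → ∃ w : List (Fin n), w.length ≤ m ∧ dw w d x ≠ 0) →
        Null (TT V h) U

/-- Energy estimate. -/
def EnStm (n : ℕ) : Prop :=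
  ∀ (χ : Rn n → ℝ), ContDiff ℝ ∞ χ → HasCompactSupport χ →
    ∀ (B : Set (Rn n)), IsOpen B → tsupport χ ⊆ B →
    ∀ (q : Fin n → Fin n → Rn n → ℝ), (∀ i j, ContDiffOn ℝ ∞ (q i j) B) →
    (∀ i j x, q i j x = q j i x) →
    (∀ x ∈ B, ∀ ξ : Rn n, ξ ≠ 0 → 0 < ∑ i, ∑ j, q i j x * ξ i * ξ j) →
    ∀ (A M : ℝ), 0 ≤ A → 0 ≤ M →
    ∃ C : ℝ, ∀ (g : Rn n → ℂ) (ε : ℝ), ContDiff ℝ ∞ g → 0 < ε →
      (∀ x ∈ tsupport χ, ∑ k, ‖pd k g x‖ ^ 2 ≤ A ^ 2) →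
      (∀ x ∈ tsupport χ, ε ^ 2 ≤ ∑ k, ‖pd k g x‖ ^ 2 → ‖∑ j, pd j (VV q g j) x‖ ≤ M) →
        ∫ x in {x | (2 * ε) ^ 2 ≤ ∑ k, ‖pd k g x‖ ^ 2},
          χ x ^ 2 * (∑ k, ∑ j, ‖pd j (pd k g) x‖ ^ 2) ≤ C

/-- Mollification. -/
def MolStm (n : ℕ) : Prop :=
  ∀ (B : Set (Rn n)), IsOpen B → ∀ (q : Fin n → Fin n → Rn n → ℝ),
    (∀ i j, ContDiffOn ℝ ∞ (q i j) B) → ∀ (G h : Rn n → ℂ), ContDiffOn ℝ 1 G B →
    ContinuousOn h B → ∀ Z : Set (Rn n), IsOpen (B \ Z) → (∀ x ∈ B ∩ Z, ∀ k, pd k G x = 0) →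
    Null (TT (VV q G) h) (B \ Z) → ∀ K : Set (Rn n), IsCompact K → K ⊆ B →
      ∃ M : ℝ, ∀ ε : ℝ, 0 < ε → ∃ g : Rn n → ℂ, ContDiff ℝ ∞ g ∧
        (∀ x ∈ K, ∀ k, ‖pd k g x - pd k G x‖ ≤ ε) ∧
        (∀ x ∈ K, ε ^ 2 ≤ ∑ k, ‖pd k G x‖ ^ 2 → ‖∑ j, pd j (VV q g j) x‖ ≤ M)

/-- Radó's theorem for `div (q ∇ G) = h` with bounded right hand side. -/
def RadStm (n : ℕ) : Prop :=
  ∀ (B : Set (Rn n)), IsOpen B → ∀ (q : Fin n → Fin n → Rn n → ℝ),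
    (∀ i j, ContDiffOn ℝ ∞ (q i j) B) → (∀ i j x, q i j x = q j i x) →
    (∀ x ∈ B, ∀ ξ : Rn n, ξ ≠ 0 → 0 < ∑ i, ∑ j, q i j x * ξ i * ξ j) →
    ∀ (G h : Rn n → ℂ), ContDiffOn ℝ 1 G B → ContinuousOn h B →
    ∀ Z : Set (Rn n), IsOpen (B \ Z) → (∀ x ∈ B ∩ Z, (∀ k, pd k G x = 0) ∧ h x = 0) →
    Null (TT (VV q G) h) (B \ Z) → Null (TT (VV q G) h) B

/-- Partial integration. -/
def RepStm (n : ℕ) : Prop :=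
  ∀ (p : ℕ), 2 ≤ p → ∀ (O : Set (Rn n)), IsOpen O →
    ∀ (q : Fin n → Fin n → Rn n → ℝ) (b c : List (Fin n) → Rn n → ℂ),
    (∀ i j, ContDiffOn ℝ ∞ (q i j) O) → (∀ w, ContDiffOn ℝ ∞ (b w) O) →
    (∀ w, ContDiffOn ℝ ∞ (c w) O) → (∀ i j x, q i j x = q j i x) →
    ∀ f : Rn n → ℂ, ContDiffOn ℝ (p - 1 : ℕ) f O →
      ∃ G h : Rn n → ℂ, ContDiffOn ℝ 1 G O ∧ ContinuousOn h O ∧
        (∀ x ∈ O, (∀ w : List (Fin n), w.length < p → dw w f x = 0) →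
          (∀ k, pd k G x = 0) ∧ h x = 0) ∧
        ∀ φ, Test O φ → ∫ x, f x * (At (p - 2) b (Lt q φ) x + At (p - 1) c φ x) =
          TT (VV q G) h φ

/-- Regularity of the derivatives. -/
def JetStm (n : ℕ) : Prop :=
  ∀ (U : Set (Rn n)), IsOpen U → ∀ (f : Rn n → ℂ) (m : ℕ) (w : List (Fin n)),
    ContDiffOn ℝ (m + w.length : ℕ) f U → ContDiffOn ℝ m (dw w f) U

end Pool.Agent.H256.RN
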